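import Mathlib

/-!
# The stochastic hyperbolic infinite quadrangulation (SHIQ): definitions

`V` is the set of vertices of the full ternary tree: a vertex is the word of the child indices on
the way from the root to it, last letter first, so that `i :: v` is the `i`-th child of `v`
(children are numbered in contour order).
-/

namespace Pool.SHQ

open MeasureTheory

/-- vertices of the full ternary tree, `[]` is the root and `i :: v` is the `i`-th child of `v` -/
abbrev V : Type := List (Fin 3)

/-- edges of the ternary tree: `(v, i)` is the edge between `v` and its child `i :: v` -/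
abbrev Ed : Type := V × Fin 3

/-- the corners of the tree: `dn v i` is the corner of `v` from which the contour goes down along
the edge to the child `i :: v`; `up v i` is the last corner of the vertex `i :: v`, from which the
contour goes back up along the edge to `v`.  The root has the three corners `dn [] i`, every other
vertex `j :: u` has the four corners `dn (j :: u) i` and `up u j`. -/
inductive Corner : Type
  | dn (v : V) (i : Fin 3) : Corner
  | up (v : V) (i : Fin 3) : Corner
  deriving DecidableEq

open Corner

/-- the vertex of a corner -/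
def vtx : Corner → V
  | dn v _ => v
  | up v i => i :: v

/-- the next corner in the contour -/
def nxt : Corner → Corner
  | dn v i => dn (i :: v) 0
  | up v 0 => dn v 1
  | up v 1 => dn v 2
  | up [] 2 => dn [] 0
  | up (j :: u) 2 => up u j

/-- the label of the vertex of a corner -/
def lv (L : V → ℤ) (c : Corner) : ℤ := L (vtx c)

/-- `c'` is the earliest corner after `c` in the contour order whose vertex carries the label of
the vertex of `c` minus one -/
def IsSucc (L : V → ℤ) (c c' : Corner) : Prop :=
  ∃ k : ℕ, 1 ≤ k ∧ c' = nxt^[k] c ∧ lv L c' = lv L c - 1 ∧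
    ∀ j : ℕ, 1 ≤ j → j < k → lv L (nxt^[j] c) ≠ lv L c - 1

/-- the graph of the SHIQ for the labels `L`: every corner is joined to its successor -/
def shiq (L : V → ℤ) : SimpleGraph V where
  Adj u v := ∃ c c' : Corner, IsSucc L c c' ∧
    ((vtx c = u ∧ vtx c' = v) ∨ (vtx c = v ∧ vtx c' = u))
  symm := ⟨fun _ _ ⟨c, c', h, h'⟩ => ⟨c, c', h, h'.symm⟩⟩
  loopless := ⟨fun v ⟨c, c', ⟨_, _, _, h, _⟩, h'⟩ => by
    have e : vtx c = vtx c' := by
      rcases h' with h' | h'
      · rw [h'.1, h'.2]
      · rw [h'.1, h'.2]
    unfold lv at h
    rw [e] at h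
    omega⟩

/-- the environments: independent uniform variables on the edges of the tree -/
abbrev Env : Type := Ed → Fin 3

/-- the labels: the increment along the edge `(v, i)` is `ω (v, i) - 1`, a value in
`{-1, 0, 1}` -/
def lab (ω : Env) : V → ℤ
  | [] => 0
  | i :: v => lab ω v + (((ω (v, i)).val : ℤ) - 1)

/-- the law of the environment: the product of the uniform measures -/
noncomputable def P : Measure Env :=
  Measure.infinitePi (fun _ : Ed => (PMF.uniformOfFintype (Fin 3)).toMeasure)

/-- the self-avoiding walks of length `n` from `r` (with their end points) -/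
def saws (G : SimpleGraph V) (r : V) (n : ℕ) : Set (Σ v : V, G.Walk r v) :=
  {p | p.2.IsPath ∧ p.2.length = n}

/-- the mean of the distance between the end points under the uniform measure on the self-avoiding
walks of length `n` from `r` -/
noncomputable def meanDist (G : SimpleGraph V) (r : V) (n : ℕ) : ℝ :=
  (∑ᶠ p ∈ saws G r n, (G.dist r p.1 : ℝ)) / ((saws G r n).ncard : ℝ)

/-! ### Auxiliary definitions -/

/-- the previous corner in the contour -/
def prv : Corner → Corner
  | dn [] 0 => up [] 2
  | dn (j :: u) 0 => dn u j
  | dn v 1 => up v 0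
  | dn v 2 => up v 1
  | up v i => up (i :: v) 2

/-- the edge along which the contour moves after the corner -/
def edge : Corner → Ed
  | dn v i => (v, i)
  | up v i => (v, i)

/-- an integer which increases strictly along the contour -/
def hgt : Corner → ℤ
  | dn v _ => (v.length : ℤ)
  | up v _ => -((v.length : ℤ) + 1)

/-- the assumptions on the labels -/
structure Good (L : V → ℤ) : Prop where
  step : ∀ v i, |L (i :: v) - L v| ≤ 1
  fwd : ∀ c : Corner, ∃ k : ℕ, 1 ≤ k ∧ lv L (nxt^[k] c) < lv L c
  bwd : ∀ c : Corner, ∃ k : ℕ, 1 ≤ k ∧ lv L (prv^[k] c) ≤ lv L c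

/-- the successor -/
noncomputable def sc (L : V → ℤ) (c : Corner) : Corner :=
  nxt^[sInf {k : ℕ | 1 ≤ k ∧ lv L (nxt^[k] c) < lv L c}] c

/-- the last corner before `c` whose label is at most the one of `c` -/
noncomputable def ob (L : V → ℤ) (c : Corner) : Corner :=
  prv^[sInf {k : ℕ | 1 ≤ k ∧ lv L (prv^[k] c) ≤ lv L c}] c

/-- the arc from `c` to its successor passes over the step of the contour after the corner `s` -/
def Cov (L : V → ℤ) (c s : Corner) : Prop :=
  ∃ j : ℕ, s = nxt^[j] c ∧ ∀ i : ℕ, i ≤ j → lv L c ≤ lv L (nxt^[i] c)

/-- `v` is in the subtree below the edge `q` -/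
def Sub (q : Ed) (v : V) : Prop := (q.2 :: q.1) <:+ v

/-- choice of an arc for every edge of the graph -/
def ArcOf (L : V → ℤ) (a : Sym2 V → Corner) : Prop :=
  ∀ u v, (shiq L).Adj u v → s(vtx (a s(u, v)), vtx (sc L (a s(u, v)))) = s(u, v)

/-- the arcs of a walk -/
noncomputable def arcs (L : V → ℤ) (a : Sym2 V → Corner) {u v : V} (p : (shiq L).Walk u v) :
    Finset Corner :=
  open Classical in (p.edges.map a).toFinset

/-- `Y` is the boundary of the finite set of edges `K` -/
def IsBd (L : V → ℤ) (K : Finset Ed) (Y : Finset Corner) : Prop :=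
  ∀ c, c ∈ Y ↔ ¬ (edge c ∈ K ↔ edge (ob L c) ∈ K)

end Pool.SHQ
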