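import Mathlib
import Pool.Agent.SHQ.Defs

/-!
# Basic facts on the contour
-/

namespace Pool.SHQ

open MeasureTheory Corner

theorem nxt_prv (c : Corner) : nxt (prv c) = c := by
  rcases c with ⟨v, i⟩ | ⟨v, i⟩
  · fin_cases i <;> rcases v with _ | ⟨j, u⟩ <;> rfl
  · rfl

theorem prv_nxt (c : Corner) : prv (nxt c) = c := by
  rcases c with ⟨v, i⟩ | ⟨v, i⟩
  · rfl
  · fin_cases i <;> rcases v with _ | ⟨j, u⟩ <;> rfl

theorem hgt_nxt (c : Corner) : hgt c < hgt (nxt c) := by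
  rcases c with ⟨v, i⟩ | ⟨v, i⟩
  · simp [nxt, hgt]
  · fin_cases i
    · simp only [nxt, hgt]; omega
    · simp only [nxt, hgt]; omega
    · rcases v with _ | ⟨j, u⟩
      · simp [nxt, hgt]
      · simp only [nxt, hgt, List.length_cons]; push_cast; omega

theorem hgt_iter (c : Corner) (k : ℕ) : hgt c + k ≤ hgt (nxt^[k] c) := by
  induction k with
  | zero => simp
  | succ k ih =>
    rw [Function.iterate_succ_apply']
    have := hgt_nxt (nxt^[k] c)
    push_cast
    omega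

theorem nxt_iter_prv (c : Corner) (k : ℕ) : nxt^[k] (prv^[k] c) = c := by
  induction k generalizing c with
  | zero => rfl
  | succ k ih =>
    rw [Function.iterate_succ_apply, Function.iterate_succ_apply' prv, nxt_prv, ih]

theorem prv_iter_nxt (c : Corner) (k : ℕ) : prv^[k] (nxt^[k] c) = c := by
  induction k generalizing c with
  | zero => rfl
  | succ k ih =>
    rw [Function.iterate_succ_apply, Function.iterate_succ_apply' nxt, prv_nxt, ih]

theorem nxt_iter_inj {c : Corner} {k l : ℕ} (h : nxt^[k] c = nxt^[l] c) : k = l := by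
  have key : ∀ a b : ℕ, ∀ c : Corner, nxt^[a] c = nxt^[a + b] c → b = 0 := by
    intro a b c h
    have h1 : prv^[a] (nxt^[a] c) = prv^[a] (nxt^[a + b] c) := by rw [h]
    rw [prv_iter_nxt, Function.iterate_add_apply, prv_iter_nxt] at h1
    have h2 := hgt_iter c b
    rw [← h1] at h2
    omega
  rcases le_total k l with hkl | hkl
  · obtain ⟨b, rfl⟩ := Nat.exists_eq_add_of_le hkl
    have := key k b c h
    omega
  · obtain ⟨b, rfl⟩ := Nat.exists_eq_add_of_le hkl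
    have := key l b c h.symm
    omega

theorem prv_iter_inj {c : Corner} {k l : ℕ} (h : prv^[k] c = prv^[l] c) : k = l := by
  have key : ∀ a b : ℕ, ∀ c : Corner, prv^[a] c = prv^[a + b] c → b = 0 := by
    intro a b c h
    have h1 : nxt^[a] (prv^[a] c) = nxt^[a] (prv^[a + b] c) := by rw [h]
    rw [nxt_iter_prv, Function.iterate_add_apply, nxt_iter_prv] at h1
    have h2 := hgt_iter (prv^[b] c) b
    rw [nxt_iter_prv, ← h1] at h2
    omega
  rcases le_total k l with hkl | hkl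
  · obtain ⟨b, rfl⟩ := Nat.exists_eq_add_of_le hkl
    have := key k b c h
    omega
  · obtain ⟨b, rfl⟩ := Nat.exists_eq_add_of_le hkl
    have := key l b c h.symm
    omega

/-- `prv` iterates are the backward `nxt` iterates -/
theorem eq_nxt_iter_iff {c s : Corner} {k : ℕ} : s = nxt^[k] c ↔ c = prv^[k] s := by
  constructor
  · rintro rfl; exact (prv_iter_nxt c k).symm
  · rintro rfl; exact (nxt_iter_prv s k).symm

/-- the contour step after `c` moves along the edge `edge c` -/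
theorem step_ends (c : Corner) :
    (vtx c = (edge c).1 ∧ vtx (nxt c) = (edge c).2 :: (edge c).1) ∨
      (vtx c = (edge c).2 :: (edge c).1 ∧ vtx (nxt c) = (edge c).1) := by
  rcases c with ⟨v, i⟩ | ⟨v, i⟩
  · exact Or.inl ⟨rfl, rfl⟩
  · right
    fin_cases i
    · exact ⟨rfl, rfl⟩
    · exact ⟨rfl, rfl⟩
    · rcases v with _ | ⟨j, u⟩
      · exact ⟨rfl, rfl⟩
      · exact ⟨rfl, rfl⟩

theorem edge_eq_iff (q : Ed) (c : Corner) : edge c = q ↔ c = dn q.1 q.2 ∨ c = up q.1 q.2 := by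
  obtain ⟨v, i⟩ := q
  rcases c with ⟨u, j⟩ | ⟨u, j⟩
  · simp [edge]
  · simp [edge]

variable {L : V → ℤ}

theorem lv_step (hL : Good L) (c : Corner) : |lv L (nxt c) - lv L c| ≤ 1 := by
  unfold lv
  rcases step_ends c with h | h
  · rw [h.1, h.2]; exact hL.step _ _
  · rw [h.1, h.2, abs_sub_comm]; exact hL.step _ _

/-- specification of the successor -/
theorem sc_spec (hL : Good L) (c : Corner) : ∃ k : ℕ, 1 ≤ k ∧ sc L c = nxt^[k] c ∧
    lv L (sc L c) = lv L c - 1 ∧ ∀ j : ℕ, j < k → lv L c ≤ lv L (nxt^[j] c) := by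
  have hne : {k : ℕ | 1 ≤ k ∧ lv L (nxt^[k] c) < lv L c}.Nonempty := hL.fwd c
  set k := sInf {k : ℕ | 1 ≤ k ∧ lv L (nxt^[k] c) < lv L c} with hk
  obtain ⟨h1, h2⟩ := Nat.sInf_mem hne
  have hmin : ∀ j : ℕ, j < k → lv L c ≤ lv L (nxt^[j] c) := by
    intro j hj
    rcases Nat.eq_zero_or_pos j with rfl | hj0
    · exact le_rfl
    · by_contra hcon
      exact Nat.notMem_of_lt_sInf hj ⟨hj0, not_le.mp hcon⟩
  refine ⟨k, h1, rfl, ?_, hmin⟩
  have h3 : lv L (sc L c) < lv L c := h2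
  have h4 := hmin (k - 1) (by omega)
  have h5 : sc L c = nxt (nxt^[k - 1] c) := by
    rw [← Function.iterate_succ_apply' nxt]
    have : (k - 1).succ = k := by omega
    rw [this]; rfl
  have h6 := lv_step hL (nxt^[k - 1] c)
  rw [← h5, abs_le] at h6
  omega

theorem sc_eq (hL : Good L) {c : Corner} {k : ℕ} (h1 : lv L (nxt^[k] c) < lv L c)
    (h2 : ∀ j : ℕ, j < k → lv L c ≤ lv L (nxt^[j] c)) : sc L c = nxt^[k] c := by
  obtain ⟨l, hl1, hl2, hl3, hl4⟩ := sc_spec hL c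
  rcases lt_trichotomy k l with h | h | h
  · exact absurd (hl4 k h) (not_le.mpr h1)
  · rw [hl2, h]
  · have := h2 l h
    rw [← hl2] at this
    omega

theorem isSucc_iff (hL : Good L) (c c' : Corner) : IsSucc L c c' ↔ c' = sc L c := by
  obtain ⟨l, hl1, hl2, hl3, hl4⟩ := sc_spec hL c
  constructor
  · rintro ⟨k, hk1, rfl, hk3, hk4⟩
    rcases lt_trichotomy k l with h | h | h
    · have := hl4 k h
      omega
    · rw [hl2, h]
    · exact absurd (by rw [← hl2]; exact hl3) (hk4 l hl1 h)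
  · rintro rfl
    refine ⟨l, hl1, hl2, hl3, fun j _ hj h => ?_⟩
    have := hl4 j hj
    omega

theorem adj_iff (hL : Good L) (u v : V) : (shiq L).Adj u v ↔
    ∃ c, (vtx c = u ∧ vtx (sc L c) = v) ∨ (vtx c = v ∧ vtx (sc L c) = u) := by
  constructor
  · rintro ⟨c, c', h, h'⟩
    rw [isSucc_iff hL] at h
    subst h
    exact ⟨c, h'⟩
  · rintro ⟨c, h⟩
    exact ⟨c, sc L c, (isSucc_iff hL _ _).mpr rfl, h⟩

theorem adj_lab {u v : V} (h : (shiq L).Adj u v) : L u = L v + 1 ∨ L v = L u + 1 := by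
  obtain ⟨c, c', ⟨_, _, _, h1, _⟩, h2⟩ := h
  unfold lv at h1
  rcases h2 with h2 | h2
  · rw [h2.1, h2.2] at h1; left; omega
  · rw [h2.1, h2.2] at h1; right; omega

/-- specification of `ob` -/
theorem ob_spec (hL : Good L) (c : Corner) : ∃ k : ℕ, 1 ≤ k ∧ ob L c = prv^[k] c ∧
    lv L (ob L c) ≤ lv L c ∧ ∀ j : ℕ, 1 ≤ j → j < k → lv L c < lv L (prv^[j] c) := by
  have hne : {k : ℕ | 1 ≤ k ∧ lv L (prv^[k] c) ≤ lv L c}.Nonempty := hL.bwd c
  set k := sInf {k : ℕ | 1 ≤ k ∧ lv L (prv^[k] c) ≤ lv L c} with hk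
  obtain ⟨h1, h2⟩ := Nat.sInf_mem hne
  refine ⟨k, h1, rfl, h2, fun j hj0 hj => ?_⟩
  by_contra hcon
  exact Nat.notMem_of_lt_sInf hj ⟨hj0, not_lt.mp hcon⟩

theorem ob_eq (hL : Good L) {c : Corner} {k : ℕ} (h0 : 1 ≤ k) (h1 : lv L (prv^[k] c) ≤ lv L c)
    (h2 : ∀ j : ℕ, 1 ≤ j → j < k → lv L c < lv L (prv^[j] c)) : ob L c = prv^[k] c := by
  obtain ⟨l, hl1, hl2, hl3, hl4⟩ := ob_spec hL c
  rcases lt_trichotomy k l with h | h | h
  · exact absurd (hl4 k h0 h) (not_lt.mpr h1)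
  · rw [hl2, h]
  · have := h2 l hl1 h
    rw [← hl2] at this
    omega

/-- `Cov` in terms of the backward iterates -/
theorem cov_iff_prv {c s : Corner} : Cov L c s ↔
    ∃ j : ℕ, c = prv^[j] s ∧ ∀ i : ℕ, i ≤ j → lv L c ≤ lv L (prv^[i] s) := by
  constructor
  · rintro ⟨j, hj, h⟩
    refine ⟨j, eq_nxt_iter_iff.mp hj, fun i hi => ?_⟩
    have h1 : prv^[i] s = nxt^[j - i] c := by
      rw [hj]
      have h2 : nxt^[j] c = nxt^[i] (nxt^[j - i] c) := by
        rw [← Function.iterate_add_apply]; congr 1; omega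
      rw [h2, prv_iter_nxt]
    rw [h1]
    exact h _ (by omega)
  · rintro ⟨j, hj, h⟩
    refine ⟨j, eq_nxt_iter_iff.mpr hj, fun i hi => ?_⟩
    have h1 : nxt^[i] c = prv^[j - i] s := by
      rw [hj]
      have h2 : prv^[j] s = prv^[i] (prv^[j - i] s) := by
        rw [← Function.iterate_add_apply]; congr 1; omega
      rw [h2, nxt_iter_prv]
    rw [h1]
    exact h _ (by omega)

/-- `Cov` in terms of the successor -/
theorem cov_iff_lt (hL : Good L) {c s : Corner} {k : ℕ} (hk : sc L c = nxt^[k] c)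
    (hk1 : ∀ j : ℕ, j < k → lv L c ≤ lv L (nxt^[j] c)) :
    Cov L c s ↔ ∃ j : ℕ, j < k ∧ s = nxt^[j] c := by
  obtain ⟨l, hl1, hl2, hl3, hl4⟩ := sc_spec hL c
  constructor
  · rintro ⟨j, hj, h⟩
    refine ⟨j, ?_, hj⟩
    by_contra hcon
    have := h k (not_lt.mp hcon)
    rw [← hk] at this
    omega
  · rintro ⟨j, hj, h⟩
    exact ⟨j, h, fun i hi => hk1 i (by omega)⟩

end Pool.SHQ
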