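import Mathlib
import Pool.Agent.SHQ.Defs

/-!
# Self-avoiding walk on the SHIQ: frozen statements of the modules
-/

namespace Pool.SHQ

open MeasureTheory Corner

/-- K1: the arc over `s`: either it starts at `s` or it is an arc over `ob s` -/
def StmtCov : Prop := ∀ L : V → ℤ, Good L → ∀ c s : Corner,
  (Cov L c s ↔ (c = s ∨ Cov L c (ob L s))) ∧ ¬ Cov L s (ob L s)

/-- K2: an arc passes over finitely many steps -/
def StmtCovFin : Prop := ∀ L : V → ℤ, Good L → ∀ c : Corner, {s | Cov L c s}.Finite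

/-- K3: an arc joins the subtree below `q` and its complement iff it passes over exactly one of the
two sides of `q` -/
def StmtCut : Prop := ∀ L : V → ℤ, Good L → ∀ (q : Ed) (c : Corner),
  ((¬ (Sub q (vtx c) ↔ Sub q (vtx (sc L c)))) ↔
    ¬ (Cov L c (dn q.1 q.2) ↔ Cov L c (up q.1 q.2)))

/-- K4: number of the corners with given `ob` -/
def StmtPre : Prop := ∀ L : V → ℤ, Good L → ∀ s : Corner, ∃ F : Finset Corner,
  (∀ c, c ∈ F ↔ ob L c = s) ∧ (F.card : ℤ) = 1 + (lv L (nxt s) - lv L s)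

/-- K5: the boundary consists of as many outgoing as incoming arcs -/
def StmtBal : Prop := ∀ L : V → ℤ, Good L → ∀ (K : Finset Ed) (Y : Finset Corner), IsBd L K Y →
  Y.card = 2 * (Y.filter (fun c => edge c ∈ K)).card

/-- K6: faces of the tree: every face which touches `K` has an outgoing arc, and the number of
edges in `K` is at most 3/2 times the number of these faces -/
def StmtFace : Prop := ∀ L : V → ℤ, Good L → ∀ (K : Finset Ed) (Y : Finset Corner), IsBd L K Y →
  2 * K.card ≤ 3 * (Y.filter (fun c => edge c ∈ K)).card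

/-- K7: a boundary has even degree at every vertex -/
def StmtEven : Prop := ∀ L : V → ℤ, Good L → ∀ (K : Finset Ed) (Y : Finset Corner), IsBd L K Y →
  ∀ v : V, Even (Y.filter (fun c => vtx c = v ∨ vtx (sc L c) = v)).card

/-- K8: out-neighbours -/
def StmtOut : Prop := ∀ L : V → ℤ, Good L →
  (∀ v : V, v ≠ [] → ∃ S : Finset V, S.card = 4 ∧ ∀ y ∈ S, (shiq L).Adj v y ∧ L y = L v - 1) ∧
  ∃ S : Finset V, S.card = 3 ∧ ∀ y ∈ S, (shiq L).Adj [] y ∧ L y = L [] - 1

/-- K9: arcs can be chosen -/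
def StmtArc : Prop := ∀ L : V → ℤ, Good L → ∃ a : Sym2 V → Corner, ArcOf L a

open Classical in
/-- K10: arcs of a path: number, and parity of the crossings of a cut -/
def StmtPar : Prop := ∀ L : V → ℤ, Good L → ∀ a : Sym2 V → Corner, ArcOf L a →
  ∀ (u v : V) (p : (shiq L).Walk u v), p.IsPath → (arcs L a p).card = p.length ∧
    ∀ q : Ed, ((¬ (Sub q u ↔ Sub q v)) ↔
      ¬ (Odd ((arcs L a p).filter (fun c => Cov L c (dn q.1 q.2))).card ↔
        Odd ((arcs L a p).filter (fun c => Cov L c (up q.1 q.2))).card))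

/-- K11: the arcs of a path determine the path -/
def StmtDet : Prop := ∀ L : V → ℤ, Good L → ∀ a : Sym2 V → Corner, ArcOf L a →
  ∀ (u v : V) (p p' : (shiq L).Walk u v), p.IsPath → p'.IsPath → arcs L a p = arcs L a p' → p = p'

/-- K12: two paths with the same end points bound a finite set of edges of the tree -/
def StmtRegion : Prop := ∀ L : V → ℤ, Good L → ∀ a : Sym2 V → Corner, ArcOf L a →
  ∀ (u v : V) (p p' : (shiq L).Walk u v), p.IsPath → p'.IsPath →
    ∃ A : Finset Ed, IsBd L A (symmDiff (arcs L a p) (arcs L a p'))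

/-- K13: a part of a path is not a boundary -/
def StmtNoBd : Prop := ∀ L : V → ℤ, Good L → ∀ a : Sym2 V → Corner, ArcOf L a →
  ∀ (u v : V) (p : (shiq L).Walk u v), p.IsPath → ∀ (K : Finset Ed) (Y : Finset Corner),
    IsBd L K Y → Y ⊆ arcs L a p → K = ∅

/-- K14: counting of finite sets by their disjoint cylinders -/
def StmtCnt : Prop := ∀ (F : Finset (Finset Ed)) (N : Finset Ed → Finset Ed) (M : ℕ),
  (∀ A ∈ F, Disjoint A (N A)) → (∀ A ∈ F, A.card + (N A).card ≤ M) →
  (∀ A ∈ F, ∀ A' ∈ F, A ≠ A' → ¬ ∃ o : Finset Ed, A ⊆ o ∧ Disjoint (N A) o ∧ A' ⊆ o ∧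
    Disjoint (N A') o) → F.card ≤ 2 ^ M

/-- K15: upper bound for the number of self-avoiding walks with given end points -/
def StmtUp : Prop := ∀ L : V → ℤ, Good L → ∀ (x : V) (m n : ℕ) (π : (shiq L).Walk [] x),
  π.IsPath → π.length = m → ∀ W : Finset ((shiq L).Walk [] x),
    (∀ w ∈ W, w.IsPath ∧ w.length = n) → W.card ≤ 4 ^ m * 2 ^ (7 * (n + m) / 4)

/-- K16: finitely many self-avoiding walks -/
def StmtFin : Prop := ∀ L : V → ℤ, Good L → ∀ (r : V) (n : ℕ), (saws (shiq L) r n).Finite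

/-- K17: lower bound for the number of self-avoiding walks by extension of geodesics with
label-decreasing walks -/
def StmtLow : Prop := ∀ L : V → ℤ, Good L → ∀ m n : ℕ, 1 ≤ m → 2 * m ≤ n → ∀ X : Finset V,
  (∀ x ∈ X, (shiq L).Reachable [] x ∧ (shiq L).dist [] x ≤ m) →
    X.card * (3 ^ m * 4 ^ (n - 2 * m)) ≤ (m + 1) * (saws (shiq L) [] n).ncard

/-- K18: numbers -/
def StmtNum : Prop := ∀ m n : ℕ, 1 ≤ m → 64 * m ≤ n →
  2 * (m + 1) * 4 ^ m * 2 ^ (7 * (n + m) / 4) ≤ 3 ^ m * 4 ^ (n - 2 * m)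

/-- K19: ballisticity for good labels -/
def StmtMain : Prop := ∀ L : V → ℤ, Good L → ∀ n : ℕ, 1 ≤ n →
  (saws (shiq L) [] n).Finite ∧ (saws (shiq L) [] n).Nonempty ∧
    (1 / 128 : ℝ) * n ≤ meanDist (shiq L) [] n

/-- K20: almost every environment is good -/
def StmtAe : Prop := ∀ᵐ ω ∂P, Good (lab ω)

end Pool.SHQ
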