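import Mathlib
import Pool.Agent.SHQ.Basic
import Pool.Agent.SHQ.Stmts

/-!
# SHIQ, K20: almost every environment is good
-/

namespace Pool.SHQ

open MeasureTheory ProbabilityTheory Corner Filter Topology

/-- probability that the walk with uniform steps in `{-1,0,1}` started at `x` stays positive for
`n` steps -/
noncomputable def Ae_g : ℕ → ℤ → ℝ
  | 0, x => if 0 < x then 1 else 0
  | n + 1, x => if 0 < x then (Ae_g n (x - 1) + Ae_g n x + Ae_g n (x + 1)) / 3 else 0

theorem Ae_g_nonneg (n : ℕ) (x : ℤ) : 0 ≤ Ae_g n x := by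
  induction n generalizing x with
  | zero => unfold Ae_g; split_ifs <;> norm_num
  | succ n ih =>
    unfold Ae_g
    split_ifs
    · have h1 := ih (x - 1)
      have h2 := ih x
      have h3 := ih (x + 1)
      linarith
    · exact le_refl _

theorem Ae_g_le_one (n : ℕ) (x : ℤ) : Ae_g n x ≤ 1 := by
  induction n generalizing x with
  | zero => unfold Ae_g; split_ifs <;> norm_num
  | succ n ih =>
    unfold Ae_g
    split_ifs
    · have h1 := ih (x - 1)
      have h2 := ih x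
      have h3 := ih (x + 1)
      linarith
    · norm_num

theorem Ae_g_neg (n : ℕ) (x : ℤ) (hx : ¬ 0 < x) : Ae_g n x = 0 := by
  cases n <;> simp [Ae_g, hx]

theorem Ae_g_succ_le (n : ℕ) (x : ℤ) : Ae_g (n + 1) x ≤ Ae_g n x := by
  induction n generalizing x with
  | zero =>
    by_cases hx : 0 < x
    · have := Ae_g_le_one (0 + 1) x
      simpa [Ae_g, hx] using this
    · rw [Ae_g_neg _ _ hx, Ae_g_neg _ _ hx]
  | succ n ih =>
    by_cases hx : 0 < x
    · have h1 := ih (x - 1)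
      have h2 := ih x
      have h3 := ih (x + 1)
      have e1 : Ae_g (n + 1 + 1) x = (Ae_g (n + 1) (x - 1) + Ae_g (n + 1) x +
        Ae_g (n + 1) (x + 1)) / 3 := by
        rw [Ae_g]; simp [hx]
      have e2 : Ae_g (n + 1) x = (Ae_g n (x - 1) + Ae_g n x + Ae_g n (x + 1)) / 3 := by
        rw [Ae_g]; simp [hx]
      rw [e1, e2]
      linarith
    · rw [Ae_g_neg _ _ hx, Ae_g_neg _ _ hx]

/-- limit of `Ae_g` -/
noncomputable def Ae_h (x : ℤ) : ℝ := ⨅ n, Ae_g n x

theorem Ae_tendsto_h (x : ℤ) : Tendsto (fun n => Ae_g n x) atTop (𝓝 (Ae_h x)) := by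
  refine tendsto_atTop_ciInf (antitone_nat_of_succ_le fun n => Ae_g_succ_le n x) ?_
  exact ⟨0, by rintro _ ⟨n, rfl⟩; exact Ae_g_nonneg n x⟩

theorem Ae_h_nonneg (x : ℤ) : 0 ≤ Ae_h x :=
  ge_of_tendsto' (Ae_tendsto_h x) fun n => Ae_g_nonneg n x

theorem Ae_h_le_one (x : ℤ) : Ae_h x ≤ 1 :=
  le_of_tendsto' (Ae_tendsto_h x) fun n => Ae_g_le_one n x

theorem Ae_h_neg (x : ℤ) (hx : ¬ 0 < x) : Ae_h x = 0 := by
  refine tendsto_nhds_unique (Ae_tendsto_h x) ?_
  have : (fun n => Ae_g n x) = fun _ => (0 : ℝ) := funext fun n => Ae_g_neg n x hx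
  rw [this]
  exact tendsto_const_nhds

theorem Ae_h_harm (x : ℤ) (hx : 0 < x) : Ae_h (x + 1) = 2 * Ae_h x - Ae_h (x - 1) := by
  have h1 : Tendsto (fun n => Ae_g (n + 1) x) atTop (𝓝 (Ae_h x)) :=
    (Ae_tendsto_h x).comp (tendsto_add_atTop_nat 1)
  have h2 : Tendsto (fun n => (Ae_g n (x - 1) + Ae_g n x + Ae_g n (x + 1)) / 3) atTop
      (𝓝 ((Ae_h (x - 1) + Ae_h x + Ae_h (x + 1)) / 3)) :=
    (((Ae_tendsto_h _).add (Ae_tendsto_h _)).add (Ae_tendsto_h _)).div_const 3
  have h3 : (fun n => Ae_g (n + 1) x) =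
      fun n => (Ae_g n (x - 1) + Ae_g n x + Ae_g n (x + 1)) / 3 := by
    funext n
    rw [Ae_g]
    simp [hx]
  rw [h3] at h1
  have := tendsto_nhds_unique h1 h2
  linarith

theorem Ae_h_lin (n : ℕ) : Ae_h n = n * Ae_h 1 ∧ Ae_h (n + 1) = (n + 1) * Ae_h 1 := by
  induction n with
  | zero =>
    refine ⟨?_, by simp⟩
    rw [Ae_h_neg _ (by simp)]
    simp
  | succ n ih =>
    obtain ⟨h1, h2⟩ := ih
    refine ⟨by push_cast; exact h2, ?_⟩
    have h3 := Ae_h_harm ((n : ℤ) + 1) (by positivity)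
    rw [add_sub_cancel_right, h1, h2] at h3
    push_cast
    rw [h3]
    ring

theorem Ae_h_zero (x : ℤ) : Ae_h x = 0 := by
  have h1 : Ae_h 1 = 0 := by
    by_contra hne
    have hpos : 0 < Ae_h 1 := lt_of_le_of_ne (Ae_h_nonneg 1) (Ne.symm hne)
    obtain ⟨n, hn⟩ := exists_nat_gt (1 / Ae_h 1)
    have h2 := (Ae_h_lin n).1
    have h3 := Ae_h_le_one n
    rw [div_lt_iff₀ hpos] at hn
    linarith
  by_cases hx : 0 < x
  · lift x to ℕ using hx.le
    rw [(Ae_h_lin x).1, h1, mul_zero]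
  · exact Ae_h_neg x hx

/-- the walk stays positive for `n` steps -/
def Ae_Ev {Ω : Type*} (X : ℕ → Ω → Fin 3) (n m : ℕ) (x : ℤ) : Set Ω :=
  {ω | ∀ k ≤ n, 0 < x + ∑ i ∈ Finset.range k, (((X (m + i) ω).val : ℤ) - 1)}

theorem Ae_indep {Ω : Type*} [MeasurableSpace Ω] {μ : Measure Ω} [IsProbabilityMeasure μ]
    {X : ℕ → Ω → Fin 3} (hX : ∀ i, Measurable (X i)) (hi : iIndepFun X μ) (n m : ℕ) (y : ℤ)
    (j : Fin 3) : μ ({ω | X m ω = j} ∩ Ae_Ev X n (m + 1) y) =
      μ {ω | X m ω = j} * μ (Ae_Ev X n (m + 1) y) := by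
  have hd : Disjoint ({m} : Finset ℕ) (Finset.Ico (m + 1) (m + 1 + n)) := by
    rw [Finset.disjoint_singleton_left, Finset.mem_Ico]
    omega
  have h := hi.indepFun_finset {m} (Finset.Ico (m + 1) (m + 1 + n)) hd hX
  have h1 := h.measure_inter_preimage_eq_mul
    {f : ({m} : Finset ℕ) → Fin 3 | f ⟨m, Finset.mem_singleton_self m⟩ = j}
    {f : (Finset.Ico (m + 1) (m + 1 + n)) → Fin 3 | ∀ k ≤ n, 0 < y + ∑ i ∈ Finset.range k,
      (((if h : m + 1 + i ∈ Finset.Ico (m + 1) (m + 1 + n) then f ⟨m + 1 + i, h⟩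
        else 0 : Fin 3).val : ℤ) - 1)} (Set.toFinite _).measurableSet
          (Set.toFinite _).measurableSet
  have e1 : (fun a (i : ({m} : Finset ℕ)) => X i a) ⁻¹'
      {f : ({m} : Finset ℕ) → Fin 3 | f ⟨m, Finset.mem_singleton_self m⟩ = j} =
      {ω | X m ω = j} := rfl
  have e2 : (fun a (i : (Finset.Ico (m + 1) (m + 1 + n))) => X i a) ⁻¹'
      {f : (Finset.Ico (m + 1) (m + 1 + n)) → Fin 3 | ∀ k ≤ n, 0 < y + ∑ i ∈ Finset.range k,
        (((if h : m + 1 + i ∈ Finset.Ico (m + 1) (m + 1 + n) then f ⟨m + 1 + i, h⟩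
          else 0 : Fin 3).val : ℤ) - 1)} = Ae_Ev X n (m + 1) y := by
    ext ω
    simp only [Set.mem_preimage, Set.mem_setOf_eq, Ae_Ev]
    refine forall_congr' fun k => forall_congr' fun hk => ?_
    have : ∑ i ∈ Finset.range k,
        (((if h : m + 1 + i ∈ Finset.Ico (m + 1) (m + 1 + n) then X (m + 1 + i) ω
          else 0 : Fin 3).val : ℤ) - 1) =
        ∑ i ∈ Finset.range k, (((X (m + 1 + i) ω).val : ℤ) - 1) := by
      refine Finset.sum_congr rfl fun i hi => ?_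
      rw [Finset.mem_range] at hi
      rw [dif_pos (Finset.mem_Ico.2 ⟨by omega, by omega⟩)]
    rw [this]
  rw [e1, e2] at h1
  exact h1

theorem Ae_Ev_le {Ω : Type*} [MeasurableSpace Ω] {μ : Measure Ω} [IsProbabilityMeasure μ]
    {X : ℕ → Ω → Fin 3} (hX : ∀ i, Measurable (X i)) (hi : iIndepFun X μ)
    (hl : ∀ i j, μ.real {ω | X i ω = j} = 1 / 3) (n m : ℕ) (x : ℤ) :
    μ.real (Ae_Ev X n m x) ≤ Ae_g n x := by
  induction n generalizing m x with
  | zero =>
    by_cases hx : 0 < x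
    · simp only [Ae_g, hx, if_true]
      exact measureReal_le_one
    · have : Ae_Ev X 0 m x = ∅ := by
        ext ω
        simp only [Ae_Ev, Set.mem_setOf_eq, Set.mem_empty_iff_false, iff_false]
        intro h
        have := h 0 le_rfl
        simp at this
        exact hx this
      rw [this]
      simp [Ae_g_nonneg]
  | succ n ih =>
    by_cases hx : 0 < x
    · have hsub : Ae_Ev X (n + 1) m x ⊆
          ⋃ j ∈ (Finset.univ : Finset (Fin 3)),
            ({ω | X m ω = j} ∩ Ae_Ev X n (m + 1) (x + ((j.val : ℤ) - 1))) := by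
        intro ω hω
        simp only [Finset.mem_univ, Set.iUnion_true, Set.mem_iUnion]
        refine ⟨X m ω, rfl, ?_⟩
        intro k hk
        have h := hω (k + 1) (by omega)
        rw [Finset.sum_range_succ'] at h
        simp only [add_zero] at h
        have e : ∑ i ∈ Finset.range k, (((X (m + (i + 1)) ω).val : ℤ) - 1) =
            ∑ i ∈ Finset.range k, (((X (m + 1 + i) ω).val : ℤ) - 1) := by
          refine Finset.sum_congr rfl fun i _ => ?_
          rw [show m + (i + 1) = m + 1 + i by ring]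
        rw [e] at h
        linarith
      have h1 : μ.real (Ae_Ev X (n + 1) m x) ≤ ∑ j : Fin 3,
          μ.real ({ω | X m ω = j} ∩ Ae_Ev X n (m + 1) (x + ((j.val : ℤ) - 1))) :=
        (measureReal_mono hsub (measure_ne_top _ _)).trans (measureReal_biUnion_finset_le _ _)
      have h2 : ∀ j : Fin 3,
          μ.real ({ω | X m ω = j} ∩ Ae_Ev X n (m + 1) (x + ((j.val : ℤ) - 1))) ≤
            1 / 3 * Ae_g n (x + ((j.val : ℤ) - 1)) := by
        intro j
        have := congrArg ENNReal.toReal (Ae_indep hX hi n m (x + ((j.val : ℤ) - 1)) j)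
        rw [ENNReal.toReal_mul] at this
        change μ.real _ = μ.real _ * μ.real _ at this
        rw [this, hl]
        exact mul_le_mul_of_nonneg_left (ih _ _) (by norm_num)
      have h3 := h1.trans (Finset.sum_le_sum fun j _ => h2 j)
      refine h3.trans (le_of_eq ?_)
      rw [Fin.sum_univ_three, Ae_g]
      simp only [hx, if_true, Fin.val_zero, Fin.val_one, Fin.val_two]
      norm_num
      ring_nf
    · have : Ae_Ev X (n + 1) m x = ∅ := by
        ext ω
        simp only [Ae_Ev, Set.mem_setOf_eq, Set.mem_empty_iff_false, iff_false]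
        intro h
        have := h 0 (by omega)
        simp at this
        exact hx this
      rw [this]
      simp [Ae_g_nonneg]

/-- the walk leaves the positive numbers almost surely -/
theorem Ae_exit {Ω : Type*} [MeasurableSpace Ω] {μ : Measure Ω} [IsProbabilityMeasure μ]
    {X : ℕ → Ω → Fin 3} (hX : ∀ i, Measurable (X i)) (hi : iIndepFun X μ)
    (hl : ∀ i j, μ.real {ω | X i ω = j} = 1 / 3) (x : ℤ) :
    ∀ᵐ ω ∂μ, ∃ k : ℕ, x + ∑ i ∈ Finset.range k, (((X i ω).val : ℤ) - 1) ≤ 0 := by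
  rw [ae_iff]
  have hsub : ∀ n, {ω | ¬ ∃ k : ℕ, x + ∑ i ∈ Finset.range k, (((X i ω).val : ℤ) - 1) ≤ 0} ⊆
      Ae_Ev X n 0 x := by
    intro n ω hω k _
    simp only [Set.mem_setOf_eq, not_exists, not_le] at hω
    simpa using hω k
  have h0 : μ.real {ω | ¬ ∃ k : ℕ, x + ∑ i ∈ Finset.range k, (((X i ω).val : ℤ) - 1) ≤ 0} ≤
      Ae_h x :=
    ge_of_tendsto' (Ae_tendsto_h x) fun n =>
      (measureReal_mono (hsub n)).trans (Ae_Ev_le hX hi hl n 0 x)
  rw [Ae_h_zero] at h0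
  have h1 := le_antisymm h0 measureReal_nonneg
  exact (measureReal_eq_zero_iff).1 h1

/-- the edges of a ray -/
def Ae_ed (u : V) (d : Fin 3) (i : ℕ) : Ed := (List.replicate i d ++ u, d)

theorem Ae_ed_inj (u : V) (d : Fin 3) : Function.Injective (Ae_ed u d) := by
  intro i j h
  have := congrArg (fun q : Ed => q.1.length) h
  simpa [Ae_ed] using this

theorem Ae_indepP : iIndepFun (fun (e : Ed) (ω : Env) => ω e) P := by
  unfold P
  rw [iIndepFun_iff_map_fun_eq_infinitePi_map (by fun_prop)]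
  have h : ∀ e : Ed, Measure.map (fun ω : Env => ω e)
      (Measure.infinitePi (fun _ : Ed => (PMF.uniformOfFintype (Fin 3)).toMeasure)) =
      (PMF.uniformOfFintype (Fin 3)).toMeasure := fun e =>
    Measure.infinitePi_map_eval (fun _ : Ed => (PMF.uniformOfFintype (Fin 3)).toMeasure) e
  simp only [h]
  exact Measure.map_id'

theorem Ae_law (e : Ed) (j : Fin 3) : P.real {ω | ω e = j} = 1 / 3 := by
  have h : Measure.map (fun ω : Env => ω e) P = (PMF.uniformOfFintype (Fin 3)).toMeasure :=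
    Measure.infinitePi_map_eval (fun _ : Ed => (PMF.uniformOfFintype (Fin 3)).toMeasure) e
  have h2 : P {ω | ω e = j} = (PMF.uniformOfFintype (Fin 3)).toMeasure {j} := by
    rw [← h, Measure.map_apply (measurable_pi_apply e) (measurableSet_singleton j)]
    rfl
  rw [Measure.real, h2, PMF.toMeasure_apply_singleton _ _ (measurableSet_singleton j)]
  simp

instance Ae_prob : IsProbabilityMeasure P := by
  unfold P
  infer_instance

/-- the variables on a ray -/
def Ae_X (u : V) (d : Fin 3) (i : ℕ) (ω : Env) : Fin 3 := ω (Ae_ed u d i)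

theorem Ae_X_meas (u : V) (d : Fin 3) (i : ℕ) : Measurable (Ae_X u d i) :=
  measurable_pi_apply _

theorem Ae_X_indep (u : V) (d : Fin 3) : iIndepFun (Ae_X u d) P :=
  iIndepFun.precomp (f := fun (e : Ed) (ω : Env) => ω e) (g := Ae_ed u d) (Ae_ed_inj u d) Ae_indepP

theorem Ae_X_law (u : V) (d : Fin 3) (i : ℕ) (j : Fin 3) : P.real {ω | Ae_X u d i ω = j} = 1 / 3 :=
  Ae_law _ j

theorem Ae_lab_ray (ω : Env) (u : V) (d : Fin 3) (k : ℕ) :
    lab ω (List.replicate k d ++ u) =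
      lab ω u + ∑ i ∈ Finset.range k, (((Ae_X u d i ω).val : ℤ) - 1) := by
  induction k with
  | zero => simp
  | succ k ih =>
    rw [Finset.sum_range_succ, List.replicate_succ, List.cons_append, lab, ih, Ae_X, Ae_ed, add_assoc]

theorem Ae_ray (u : V) (d : Fin 3) :
    ∀ᵐ ω ∂P, ∀ a : ℤ, ∃ k : ℕ, 1 ≤ k ∧ lab ω (List.replicate k d ++ u) < a := by
  have h1 : ∀ᵐ ω ∂P, ∀ x : ℤ, ∃ k : ℕ,
      x + ∑ i ∈ Finset.range k, (((Ae_X u d i ω).val : ℤ) - 1) ≤ 0 := by
    rw [ae_all_iff]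
    intro x
    exact Ae_exit (Ae_X_meas u d) (Ae_X_indep u d) (Ae_X_law u d) x
  filter_upwards [h1] with ω hω a
  obtain ⟨k, hk⟩ := hω (max 1 (lab ω u - a + 1))
  refine ⟨k, ?_, ?_⟩
  · rcases Nat.eq_zero_or_pos k with rfl | h
    · simp at hk
    · exact h
  · rw [Ae_lab_ray]
    have := le_max_right 1 (lab ω u - a + 1)
    linarith

theorem Ae_nxt_up (v : V) (i : Fin 3) : ∃ (k : ℕ) (u : V), nxt^[k] (up v i) = dn u 0 := by
  induction v generalizing i with
  | nil =>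
    fin_cases i
    · exact ⟨2, [1], rfl⟩
    · exact ⟨2, [2], rfl⟩
    · exact ⟨1, [], rfl⟩
  | cons j v ih =>
    fin_cases i
    · exact ⟨2, 1 :: j :: v, rfl⟩
    · exact ⟨2, 2 :: j :: v, rfl⟩
    · obtain ⟨k, u, h⟩ := ih j
      exact ⟨k + 1, u, by rw [Function.iterate_succ_apply]; exact h⟩

theorem Ae_nxt_end (c : Corner) : ∃ (k : ℕ) (u : V), nxt^[k] c = dn u 0 := by
  cases c with
  | dn v i => exact ⟨1, i :: v, rfl⟩
  | up v i => exact Ae_nxt_up v i

theorem Ae_nxt_ray (u : V) (k : ℕ) : nxt^[k] (dn u 0) = dn (List.replicate k 0 ++ u) 0 := by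
  induction k with
  | zero => rfl
  | succ k ih => rw [Function.iterate_succ_apply', ih]; rfl

theorem Ae_prv_dn (v : V) (i : Fin 3) : ∃ (k : ℕ) (u : V), prv^[k] (dn v i) = up u 2 := by
  induction v generalizing i with
  | nil =>
    fin_cases i
    · exact ⟨1, [], rfl⟩
    · exact ⟨2, [0], rfl⟩
    · exact ⟨2, [1], rfl⟩
  | cons j v ih =>
    fin_cases i
    · obtain ⟨k, u, h⟩ := ih j
      exact ⟨k + 1, u, by rw [Function.iterate_succ_apply]; exact h⟩
    · exact ⟨2, 0 :: j :: v, rfl⟩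
    · exact ⟨2, 1 :: j :: v, rfl⟩

theorem Ae_prv_end (c : Corner) : ∃ (k : ℕ) (u : V), prv^[k] c = up u 2 := by
  cases c with
  | dn v i => exact Ae_prv_dn v i
  | up v i => exact ⟨1, i :: v, rfl⟩

theorem Ae_prv_ray (u : V) (k : ℕ) : prv^[k] (up u 2) = up (List.replicate k 2 ++ u) 2 := by
  induction k with
  | zero => rfl
  | succ k ih => rw [Function.iterate_succ_apply', ih]; rfl

theorem stmtAe : StmtAe := by
  have h0 : ∀ᵐ ω ∂P, ∀ u : V, ∀ a : ℤ, ∃ k : ℕ, 1 ≤ k ∧ lab ω (List.replicate k 0 ++ u) < a :=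
    ae_all_iff.2 fun u => Ae_ray u 0
  have h2 : ∀ᵐ ω ∂P, ∀ u : V, ∀ a : ℤ, ∃ k : ℕ, 1 ≤ k ∧ lab ω (List.replicate k 2 ++ u) < a :=
    ae_all_iff.2 fun u => Ae_ray u 2
  show ∀ᵐ ω ∂P, Good (lab ω)
  filter_upwards [h0, h2] with ω h0 h2
  refine ⟨?_, ?_, ?_⟩
  · intro v i
    have : (ω (v, i)).val < 3 := (ω (v, i)).isLt
    rw [lab, abs_le]
    constructor <;> omega
  · intro c
    obtain ⟨k, u, h⟩ := Ae_nxt_end c
    obtain ⟨l, hl, hlt⟩ := h0 u (lv (lab ω) c)
    refine ⟨l + k, by omega, ?_⟩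
    rw [Function.iterate_add_apply, h, Ae_nxt_ray]
    exact hlt
  · intro c
    obtain ⟨k, u, h⟩ := Ae_prv_end c
    obtain ⟨l, hl, hlt⟩ := h2 (2 :: u) (lv (lab ω) c)
    refine ⟨l + k, by omega, ?_⟩
    rw [Function.iterate_add_apply, h, Ae_prv_ray]
    refine le_of_lt ?_
    have e : (2 : Fin 3) :: (List.replicate l 2 ++ u) = List.replicate l 2 ++ (2 :: u) := by
      rw [← List.cons_append, ← List.replicate_succ, List.replicate_succ', List.append_assoc]
      rfl
    unfold lv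
    rw [vtx, e]
    exact hlt

end Pool.SHQ
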