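import Mathlib
import Pool.Agent.SHQ.Basic
import Pool.Agent.SHQ.Stmts

/-!
# Good labels from the behaviour on rays
-/

namespace Pool.SHQ

open MeasureTheory Corner

theorem aecomb_nxt_ray (u : V) (k : ℕ) :
    nxt^[k] (dn u 0) = dn (List.replicate k 0 ++ u) 0 := by
  induction k with
  | zero => rfl
  | succ k ih =>
    rw [Function.iterate_succ_apply', ih]
    rfl

theorem aecomb_prv_ray (u : V) (k : ℕ) :
    prv^[k] (up u 2) = up (List.replicate k 2 ++ u) 2 := by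
  induction k with
  | zero => rfl
  | succ k ih =>
    rw [Function.iterate_succ_apply', ih]
    rfl

theorem aecomb_nxt_end_up (v : V) : ∀ i : Fin 3, ∃ (j : ℕ) (u : V), nxt^[j] (up v i) = dn u 0 := by
  induction v with
  | nil =>
    intro i
    fin_cases i
    · exact ⟨2, [1], rfl⟩
    · exact ⟨2, [2], rfl⟩
    · exact ⟨1, [], rfl⟩
  | cons a v ih =>
    intro i
    fin_cases i
    · exact ⟨2, 1 :: a :: v, rfl⟩
    · exact ⟨2, 2 :: a :: v, rfl⟩
    · obtain ⟨j, u, h⟩ := ih a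
      refine ⟨j + 1, u, ?_⟩
      rw [Function.iterate_succ_apply]
      exact h

theorem aecomb_nxt_end (c : Corner) : ∃ (j : ℕ) (u : V), nxt^[j] c = dn u 0 := by
  rcases c with ⟨v, i⟩ | ⟨v, i⟩
  · exact ⟨1, i :: v, rfl⟩
  · exact aecomb_nxt_end_up v i

theorem aecomb_prv_end_dn (v : V) : ∀ i : Fin 3, ∃ (j : ℕ) (u : V), prv^[j] (dn v i) = up u 2 := by
  induction v with
  | nil =>
    intro i
    fin_cases i
    · exact ⟨1, [], rfl⟩
    · exact ⟨2, [0], rfl⟩
    · exact ⟨2, [1], rfl⟩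
  | cons a v ih =>
    intro i
    fin_cases i
    · obtain ⟨j, u, h⟩ := ih a
      refine ⟨j + 1, u, ?_⟩
      rw [Function.iterate_succ_apply]
      exact h
    · exact ⟨2, 0 :: a :: v, rfl⟩
    · exact ⟨2, 1 :: a :: v, rfl⟩

theorem aecomb_prv_end (c : Corner) : ∃ (j : ℕ) (u : V), prv^[j] c = up u 2 := by
  rcases c with ⟨v, i⟩ | ⟨v, i⟩
  · exact aecomb_prv_end_dn v i
  · exact ⟨1, i :: v, rfl⟩

theorem good_of_rays (w : Env)
    (h : ∀ (u : V) (i : Fin 3) (a : ℤ), ∃ k : ℕ, 1 ≤ k ∧ lab w (List.replicate k i ++ u) < a) :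
    Good (lab w) := by
  refine ⟨?_, ?_, ?_⟩
  · intro v i
    have h1 : lab w (i :: v) = lab w v + (((w (v, i)).val : ℤ) - 1) := rfl
    have h2 : (w (v, i)).val < 3 := (w (v, i)).isLt
    rw [h1, abs_le]
    omega
  · intro c
    obtain ⟨j, u, hj⟩ := aecomb_nxt_end c
    obtain ⟨k, hk1, hk2⟩ := h u 0 (lv (lab w) c)
    refine ⟨k + j, by omega, ?_⟩
    rw [Function.iterate_add_apply, hj, aecomb_nxt_ray]
    exact hk2
  · intro c
    obtain ⟨j, u, hj⟩ := aecomb_prv_end c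
    obtain ⟨k, hk1, hk2⟩ := h u 2 (lv (lab w) c)
    obtain ⟨l, rfl⟩ := Nat.exists_eq_add_of_le' hk1
    have h1 : lv (lab w) (prv^[l + j] c) < lv (lab w) c := by
      rw [Function.iterate_add_apply, hj, aecomb_prv_ray]
      exact hk2
    refine ⟨l + j, ?_, h1.le⟩
    by_contra hcon
    have h2 : l + j = 0 := by omega
    rw [h2] at h1
    exact lt_irrefl _ h1

end Pool.SHQ
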