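import Mathlib
import Pool.Agent.SHQ.Basic
import Pool.Agent.SHQ.Stmts

/-!
# The labels along the rays are almost surely unbounded below
-/

namespace Pool.SHQ

open MeasureTheory Corner ProbabilityTheory

theorem aew_prob : IsProbabilityMeasure P := by
  unfold P
  infer_instance

theorem aew_lab (w : Env) (i : Fin 3) (v : V) (k : ℕ) :
    lab w (List.replicate k i ++ v) = lab w v +
      ∑ l ∈ Finset.range k, (((w (List.replicate l i ++ v, i)).val : ℤ) - 1) := by
  induction k with
  | zero => simp
  | succ k ih =>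
    rw [Finset.sum_range_succ, ← add_assoc, ← ih]
    rfl

theorem aew_lab_le (w : Env) (u : V) : lab w u ≤ u.length := by
  induction u with
  | nil => exact le_rfl
  | cons i v ih =>
    have h1 : lab w (i :: v) = lab w v + (((w (v, i)).val : ℤ) - 1) := rfl
    have h2 : (w (v, i)).val < 3 := (w (v, i)).isLt
    rw [h1, List.length_cons]
    push_cast
    omega

/-- a set of environments which depends on finitely many coordinates -/
theorem aew_preimage {T : Finset Ed} {A : Set Env}
    (h : ∀ w w' : Env, (∀ e ∈ T, w e = w' e) → w ∈ A → w' ∈ A) :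
    ∃ B : Set (T → Fin 3), MeasurableSet B ∧ A = (fun (w : Env) (e : T) => w e) ⁻¹' B := by
  refine ⟨(fun (w : Env) (e : T) => w e) '' A, (Set.toFinite _).measurableSet, ?_⟩
  ext w
  constructor
  · intro hw
    exact ⟨w, hw, rfl⟩
  · rintro ⟨w', hw', h'⟩
    exact h w' w (fun e he => congrFun h' ⟨e, he⟩) hw'

theorem aew_coord (e : Ed) (s : Fin 3) : P.real {w : Env | w e = s} = 1 / 3 := by
  have h1 : P {w : Env | w e = s} = (PMF.uniformOfFintype (Fin 3)).toMeasure {s} := by
    have h2 := (measurePreserving_eval_infinitePi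
      (fun _ : Ed => (PMF.uniformOfFintype (Fin 3)).toMeasure) e).measure_preimage
      (MeasurableSet.singleton s).nullMeasurableSet
    exact h2
  rw [measureReal_def, h1, PMF.toMeasure_apply_singleton _ _ (MeasurableSet.singleton s)]
  simp

theorem aew_indep (T : Finset Ed) (e : Ed) (he : e ∉ T) (s : Fin 3) {A : Set Env}
    (h : ∀ w w' : Env, (∀ e ∈ T, w e = w' e) → w ∈ A → w' ∈ A) :
    P.real ({w : Env | w e = s} ∩ A) = 1 / 3 * P.real A := by
  obtain ⟨B, hB, rfl⟩ := aew_preimage h
  have hind : iIndepFun (fun (e : Ed) (w : Env) => w e) P := by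
    unfold P
    exact iIndepFun_infinitePi (X := fun _ x => x) (fun _ => measurable_id)
  have h1 := hind.indepFun_finset {e} T (Finset.disjoint_singleton_left.mpr he)
    (fun e => measurable_pi_apply e)
  have h2 := h1.measure_inter_preimage_eq_mul {t | t ⟨e, Finset.mem_singleton_self e⟩ = s} B
    (Set.toFinite _).measurableSet hB
  have h3 : (fun (w : Env) (i : ({e} : Finset Ed)) => w i) ⁻¹'
      {t | t ⟨e, Finset.mem_singleton_self e⟩ = s} = {w : Env | w e = s} := rfl
  rw [h3] at h2
  rw [measureReal_def, h2, ENNReal.toReal_mul, ← measureReal_def, ← measureReal_def, aew_coord]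

/-- the walk along the ray, started at `x`, stays positive during `n` steps -/
def stay (i : Fin 3) (n : ℕ) (u : V) (x : ℤ) : Set Env :=
  {w | ∀ k : ℕ, k ≤ n → 0 < x + (lab w (List.replicate k i ++ u) - lab w u)}

theorem aew_stay_dep (i : Fin 3) (n : ℕ) (u : V) (x : ℤ) (w w' : Env)
    (h : ∀ e ∈ (Finset.range n).image (fun l => ((List.replicate l i ++ u, i) : Ed)),
      w e = w' e) (hw : w ∈ stay i n u x) : w' ∈ stay i n u x := by
  intro k hk
  have h1 := hw k hk
  rw [aew_lab, add_sub_cancel_left] at h1 ⊢
  have h2 : ∑ l ∈ Finset.range k, (((w (List.replicate l i ++ u, i)).val : ℤ) - 1) =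
      ∑ l ∈ Finset.range k, (((w' (List.replicate l i ++ u, i)).val : ℤ) - 1) := by
    apply Finset.sum_congr rfl
    intro l hl
    rw [h _ (Finset.mem_image.mpr ⟨l, ?_, rfl⟩)]
    rw [Finset.mem_range] at hl ⊢
    omega
  rw [← h2]
  exact h1

theorem aew_stay_meas (i : Fin 3) (n : ℕ) (u : V) (x : ℤ) : MeasurableSet (stay i n u x) := by
  obtain ⟨B, hB, h⟩ := aew_preimage (aew_stay_dep i n u x)
  rw [h]
  exact (measurable_pi_lambda _ fun e => measurable_pi_apply _) hB

theorem aew_replicate (i : Fin 3) (k : ℕ) (u : V) :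
    List.replicate (k + 1) i ++ u = List.replicate k i ++ (i :: u) := by
  rw [List.replicate_succ', List.append_assoc]
  rfl

theorem aew_stay_succ (i : Fin 3) (n : ℕ) (u : V) (x : ℤ) (hx : 0 < x) :
    stay i (n + 1) u x = ⋃ s ∈ (Finset.univ : Finset (Fin 3)),
      ({w : Env | w (u, i) = s} ∩ stay i n (i :: u) (x + ((s.val : ℤ) - 1))) := by
  ext w
  simp only [Finset.mem_univ, Set.iUnion_true, Set.mem_iUnion]
  have hl : lab w (i :: u) = lab w u + (((w (u, i)).val : ℤ) - 1) := rfl
  constructor
  · intro h
    refine ⟨w (u, i), rfl, fun k hk => ?_⟩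
    have h1 := h (k + 1) (by omega)
    rw [aew_replicate] at h1
    rw [hl]
    omega
  · rintro ⟨s, hs, h⟩ k hk
    have hs : w (u, i) = s := hs
    rcases k with _ | k
    · simpa using hx
    · have h1 := h k (by omega)
      rw [hl, hs] at h1
      rw [aew_replicate]
      omega

/-- the probability of `stay` -/
noncomputable def gst : ℕ → ℤ → ℝ
  | 0, x => if 0 < x then 1 else 0
  | n + 1, x => if 0 < x then (gst n (x - 1) + gst n x + gst n (x + 1)) / 3 else 0

theorem aew_stay_prob (i : Fin 3) (n : ℕ) : ∀ (u : V) (x : ℤ),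
    P.real (stay i n u x) = gst n x := by
  have hP := aew_prob
  induction n with
  | zero =>
    intro u x
    unfold gst
    split_ifs with hx
    · have h1 : stay i 0 u x = Set.univ := by
        ext w
        simp only [Set.mem_univ, iff_true]
        intro k hk
        have : k = 0 := by omega
        subst this
        simpa using hx
      rw [h1]
      simp
    · have h1 : stay i 0 u x = ∅ := by
        ext w
        simp only [Set.mem_empty_iff_false, iff_false]
        intro h
        have := h 0 le_rfl
        simp at this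
        exact hx this
      rw [h1]
      simp
  | succ n ih =>
    intro u x
    unfold gst
    split_ifs with hx
    · rw [aew_stay_succ i n u x hx, measureReal_biUnion_finset]
      · have h1 : ∀ s : Fin 3, P.real ({w : Env | w (u, i) = s} ∩
            stay i n (i :: u) (x + ((s.val : ℤ) - 1))) = 1 / 3 * gst n (x + ((s.val : ℤ) - 1)) := by
          intro s
          rw [aew_indep _ (u, i) _ s (aew_stay_dep i n (i :: u) _), ih]
          intro hmem
          obtain ⟨l, -, hl⟩ := Finset.mem_image.mp hmem
          have h2 := congrArg (fun e : Ed => e.1.length) hl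
          simp at h2
          omega
        rw [Fin.sum_univ_three, h1, h1, h1]
        have e0 : x + (((0 : Fin 3).val : ℤ) - 1) = x - 1 := by simp; ring
        have e1 : x + (((1 : Fin 3).val : ℤ) - 1) = x := by simp
        have e2 : x + (((2 : Fin 3).val : ℤ) - 1) = x + 1 := by simp
        rw [e0, e1, e2]
        ring
      · intro s _ s' _ hne
        rw [Function.onFun, Set.disjoint_left]
        rintro w ⟨h1, -⟩ ⟨h2, -⟩
        exact hne (Eq.trans (Eq.symm h1) h2)
      · intro s _
        refine MeasurableSet.inter ?_ (aew_stay_meas _ _ _ _)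
        have hm : Measurable (fun w : Env => w (u, i)) := measurable_pi_apply (u, i)
        exact hm (MeasurableSet.singleton s)
    · have h1 : stay i (n + 1) u x = ∅ := by
        ext w
        simp only [Set.mem_empty_iff_false, iff_false]
        intro h
        have := h 0 (Nat.zero_le _)
        simp at this
        exact hx this
      rw [h1]
      simp

theorem gst_bounds (n : ℕ) : ∀ x : ℤ, 0 ≤ gst n x ∧ gst n x ≤ 1 := by
  induction n with
  | zero =>
    intro x
    unfold gst
    split_ifs <;> norm_num
  | succ n ih =>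
    intro x
    unfold gst
    split_ifs
    · obtain ⟨h1, h2⟩ := ih (x - 1)
      obtain ⟨h3, h4⟩ := ih x
      obtain ⟨h5, h6⟩ := ih (x + 1)
      constructor <;> linarith
    · norm_num

theorem gst_anti (n : ℕ) : ∀ x : ℤ, gst (n + 1) x ≤ gst n x := by
  induction n with
  | zero =>
    intro x
    by_cases hx : 0 < x
    · have h1 := (gst_bounds 1 x).2
      have h2 : gst 0 x = 1 := by unfold gst; rw [if_pos hx]
      rw [h2]
      exact h1
    · have h1 : gst (0 + 1) x = 0 := by unfold gst; rw [if_neg hx]
      rw [h1]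
      exact (gst_bounds 0 x).1
  | succ n ih =>
    intro x
    by_cases hx : 0 < x
    · have h1 : gst (n + 1 + 1) x =
          (gst (n + 1) (x - 1) + gst (n + 1) x + gst (n + 1) (x + 1)) / 3 := by
        rw [gst, if_pos hx]
      have h2 : gst (n + 1) x = (gst n (x - 1) + gst n x + gst n (x + 1)) / 3 := by
        rw [gst, if_pos hx]
      have h3 := ih (x - 1)
      have h4 := ih x
      have h5 := ih (x + 1)
      rw [h1]
      linarith
    · have h1 : gst (n + 1 + 1) x = 0 := by rw [gst, if_neg hx]
      rw [h1]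
      exact (gst_bounds _ x).1

theorem gst_tendsto (x : ℤ) : Filter.Tendsto (fun n => gst n x) Filter.atTop (nhds 0) := by
  have hlim : ∀ x : ℤ, ∃ l : ℝ, Filter.Tendsto (fun n => gst n x) Filter.atTop (nhds l) := by
    intro x
    exact ⟨_, tendsto_atTop_ciInf (antitone_nat_of_succ_le fun n => gst_anti n x)
      ⟨0, by rintro _ ⟨n, rfl⟩; exact (gst_bounds n x).1⟩⟩
  choose f hf using hlim
  have hf1 : ∀ x, f x ≤ 1 := fun x =>
    le_of_tendsto (hf x) (Filter.Eventually.of_forall fun n => (gst_bounds n x).2)
  have hf0 : ∀ x, 0 ≤ f x := fun x =>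
    ge_of_tendsto (hf x) (Filter.Eventually.of_forall fun n => (gst_bounds n x).1)
  have hneg : ∀ x : ℤ, x ≤ 0 → f x = 0 := by
    intro x hx
    have h1 : ∀ n, gst n x = 0 := by
      intro n
      cases n with
      | zero => rw [gst, if_neg (by omega)]
      | succ n => rw [gst, if_neg (by omega)]
    exact tendsto_nhds_unique (hf x) (by simp [h1])
  have hrec : ∀ x : ℤ, 0 < x → f x = (f (x - 1) + f x + f (x + 1)) / 3 := by
    intro x hx
    have h1 : Filter.Tendsto (fun n => gst (n + 1) x) Filter.atTop (nhds (f x)) :=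
      (hf x).comp (Filter.tendsto_add_atTop_nat 1)
    have h2 : (fun n => gst (n + 1) x) =
        fun n => (gst n (x - 1) + gst n x + gst n (x + 1)) / 3 := by
      funext n
      rw [gst, if_pos hx]
    rw [h2] at h1
    exact tendsto_nhds_unique h1 ((((hf (x - 1)).add (hf x)).add (hf (x + 1))).div_const 3)
  have hlin : ∀ m : ℕ, f m = m * f 1 ∧ f (m + 1 : ℕ) = (m + 1 : ℕ) * f 1 := by
    intro m
    induction m with
    | zero =>
      constructor
      · rw [hneg _ (by simp)]; simp
      · simp
    | succ m ih =>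
      refine ⟨ih.2, ?_⟩
      have h1 := hrec ((m + 1 : ℕ) : ℤ) (by positivity)
      have h2 : ((m + 1 : ℕ) : ℤ) - 1 = (m : ℤ) := by push_cast; ring
      have h3 : ((m + 1 : ℕ) : ℤ) + 1 = ((m + 1 + 1 : ℕ) : ℤ) := by push_cast; ring
      rw [h2, h3, ih.1, ih.2] at h1
      push_cast at h1 ⊢
      linarith
  have hf1' : f 1 = 0 := by
    by_contra hne
    have hpos : 0 < f 1 := lt_of_le_of_ne (hf0 1) (Ne.symm hne)
    obtain ⟨m, hm⟩ := exists_nat_gt (1 / f 1)
    have h1 := (hlin m).1
    have h2 := hf1 m
    rw [h1] at h2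
    rw [div_lt_iff₀ hpos] at hm
    linarith
  have h0 : f x = 0 := by
    rcases le_or_gt x 0 with hx | hx
    · exact hneg x hx
    · obtain ⟨m, rfl⟩ := Int.eq_ofNat_of_zero_le hx.le
      have := (hlin m).1
      rw [hf1', mul_zero] at this
      exact this
  rw [← h0]
  exact hf x

theorem ray_low : ∀ᵐ w ∂P, ∀ (u : V) (i : Fin 3) (a : ℤ),
    ∃ k : ℕ, 1 ≤ k ∧ lab w (List.replicate k i ++ u) < a := by
  have hP := aew_prob
  rw [ae_all_iff]
  intro u
  rw [ae_all_iff]
  intro i
  rw [ae_all_iff]
  intro a
  rw [ae_iff]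
  set Z : Set Env := {w | ¬ ∃ k : ℕ, 1 ≤ k ∧ lab w (List.replicate k i ++ u) < a} with hZ
  have hsub : ∀ n, Z ⊆ stay i n u (u.length + |a| + 1) := by
    intro n w hw k hk
    have h1 := aew_lab_le w u
    rcases Nat.eq_zero_or_pos k with rfl | hk0
    · simp only [List.replicate_zero, List.nil_append, sub_self, add_zero]
      positivity
    · have h2 : a ≤ lab w (List.replicate k i ++ u) := by
        by_contra hcon
        exact hw ⟨k, hk0, not_le.mp hcon⟩
      have h3 := neg_abs_le a
      omega
  have hle : ∀ n, P.real Z ≤ gst n (u.length + |a| + 1) := by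
    intro n
    rw [← aew_stay_prob i n u]
    exact measureReal_mono (hsub n)
  have h0 : P.real Z ≤ 0 := ge_of_tendsto' (gst_tendsto _) hle
  have h1 : P.real Z = 0 := le_antisymm h0 measureReal_nonneg
  rwa [measureReal_eq_zero_iff] at h1

end Pool.SHQ
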