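import Mathlib
import Pool.Agent.SHQ.Basic
import Pool.Agent.SHQ.Stmts

/-!
# Choice of the arcs (K9)
-/

namespace Pool.SHQ

open MeasureTheory Corner

theorem stmtArc : StmtArc := by
  classical
  intro L hL
  refine ⟨fun e => if h : ∃ c, s(vtx c, vtx (sc L c)) = e then h.choose else dn [] 0, ?_⟩
  intro u v huv
  have hex : ∃ c, s(vtx c, vtx (sc L c)) = s(u, v) := by
    obtain ⟨c, hc⟩ := (adj_iff hL u v).mp huv
    exact ⟨c, Sym2.eq_iff.mpr hc⟩
  simp only [dif_pos hex]
  exact hex.choose_spec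

end Pool.SHQ
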