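import Mathlib
import Pool.Agent.SHQ.Basic
import Pool.Agent.SHQ.Stmts

/-!
# Outgoing and incoming arcs of a boundary (K5)
-/

namespace Pool.SHQ

open MeasureTheory Corner

/-- the corners on the two sides of the edges of `K` -/
def balC (K : Finset Ed) : Finset Corner := K.biUnion (fun q => {dn q.1 q.2, up q.1 q.2})

theorem bal_mem (K : Finset Ed) (c : Corner) : c ∈ balC K ↔ edge c ∈ K := by
  unfold balC
  rw [Finset.mem_biUnion]
  constructor
  · rintro ⟨q, hq, hc⟩
    rw [Finset.mem_insert, Finset.mem_singleton, ← edge_eq_iff] at hc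
    rw [hc]; exact hq
  · intro h
    refine ⟨edge c, h, ?_⟩
    rw [Finset.mem_insert, Finset.mem_singleton, ← edge_eq_iff]

theorem bal_sum (K : Finset Ed) (f : Corner → ℤ) :
    ∑ c ∈ balC K, f c = ∑ q ∈ K, (f (dn q.1 q.2) + f (up q.1 q.2)) := by
  unfold balC
  rw [Finset.sum_biUnion]
  · apply Finset.sum_congr rfl
    intro q _
    rw [Finset.sum_pair (by simp)]
  · intro q _ q' _ hne
    rw [Function.onFun, Finset.disjoint_left]
    intro c hc hc'
    rw [Finset.mem_insert, Finset.mem_singleton, ← edge_eq_iff] at hc hc'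
    exact hne (hc.symm.trans hc')

theorem bal_step (L : V → ℤ) (q : Ed) :
    (lv L (nxt (dn q.1 q.2)) - lv L (dn q.1 q.2)) + (lv L (nxt (up q.1 q.2)) - lv L (up q.1 q.2))
      = 0 := by
  have h1 := step_ends (dn q.1 q.2)
  have h2 := step_ends (up q.1 q.2)
  have h3 : vtx (nxt (up q.1 q.2)) = q.1 := by
    rcases h2 with h | h
    · exact absurd h.1.symm (by simp [edge, vtx])
    · exact h.2
  have h4 : vtx (nxt (dn q.1 q.2)) = q.2 :: q.1 := rfl
  unfold lv
  rw [h3, h4]
  simp only [vtx]
  ring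

theorem stmtBal_of (hPre : StmtPre) : StmtBal := by
  classical
  intro L hL K Y hY
  choose F hF1 hF2 using hPre L hL
  set C := balC K with hC
  set D := C.biUnion F with hD
  have hDmem : ∀ c, c ∈ D ↔ edge (ob L c) ∈ K := by
    intro c
    rw [hD, Finset.mem_biUnion]
    constructor
    · rintro ⟨s, hs, hc⟩
      rw [(hF1 s c).mp hc]
      exact (bal_mem K s).mp hs
    · intro h
      exact ⟨ob L c, (bal_mem K _).mpr h, (hF1 _ c).mpr rfl⟩
  have hDcard : (D.card : ℤ) = C.card := by
    have h1 : D.card = ∑ s ∈ C, (F s).card := by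
      apply Finset.card_biUnion
      intro s _ s' _ hne
      rw [Function.onFun, Finset.disjoint_left]
      intro c hc hc'
      exact hne (((hF1 s c).mp hc).symm.trans ((hF1 s' c).mp hc'))
    rw [h1]
    push_cast
    have h2 : ∑ s ∈ C, ((F s).card : ℤ) = ∑ s ∈ C, (1 + (lv L (nxt s) - lv L s)) :=
      Finset.sum_congr rfl fun s _ => hF2 s
    rw [h2, Finset.sum_add_distrib, hC, bal_sum K (fun s => lv L (nxt s) - lv L s)]
    have h3 : ∑ q ∈ K, ((lv L (nxt (dn q.1 q.2)) - lv L (dn q.1 q.2)) +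
        (lv L (nxt (up q.1 q.2)) - lv L (up q.1 q.2))) = 0 :=
      Finset.sum_eq_zero fun q _ => bal_step L q
    rw [h3]
    simp
  have hDcard' : D.card = C.card := by exact_mod_cast hDcard
  have hYeq : Y = (C \ D) ∪ (D \ C) := by
    ext c
    rw [hY c, Finset.mem_union, Finset.mem_sdiff, Finset.mem_sdiff, hDmem c, bal_mem K c]
    tauto
  have hfil : Y.filter (fun c => edge c ∈ K) = C \ D := by
    ext c
    rw [Finset.mem_filter, hY c, Finset.mem_sdiff, hDmem c, bal_mem K c]
    tauto
  have hd : Disjoint (C \ D) (D \ C) := by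
    rw [Finset.disjoint_left]
    intro c h1 h2
    rw [Finset.mem_sdiff] at h1 h2
    exact h1.2 h2.1
  rw [hfil, hYeq, Finset.card_union_of_disjoint hd]
  have h1 := Finset.card_sdiff_add_card_inter C D
  have h2 := Finset.card_sdiff_add_card_inter D C
  rw [Finset.inter_comm] at h2
  omega

end Pool.SHQ
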