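import Mathlib
import Pool.Agent.SHQ.Basic
import Pool.Agent.SHQ.Stmts

/-!
# Counting by disjoint cylinders (K14)
-/

namespace Pool.SHQ

open MeasureTheory Corner

theorem stmtCnt : StmtCnt := by
  classical
  intro F N M hdisj hcard hcyl
  set U : Finset Ed := F.biUnion (fun A => A ∪ N A) with hU
  -- the cylinder of A
  let cyl : Finset Ed → Finset (Finset Ed) := fun A => (U \ (A ∪ N A)).powerset.image (fun t => A ∪ t)
  have hAU : ∀ A ∈ F, A ∪ N A ⊆ U := fun A hA =>
    Finset.subset_biUnion_of_mem (fun A => A ∪ N A) hA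
  have hcylcard : ∀ A ∈ F, 2 ^ U.card ≤ 2 ^ M * (cyl A).card := by
    intro A hA
    have h1 : (cyl A).card = 2 ^ (U \ (A ∪ N A)).card := by
      rw [← Finset.card_powerset]
      apply Finset.card_image_of_injOn
      intro t ht t' ht' h
      rw [Finset.mem_coe, Finset.mem_powerset] at ht ht'
      have h2 : ∀ s : Finset Ed, s ⊆ U \ (A ∪ N A) → (A ∪ s) \ A = s := by
        intro s hs
        ext e
        rw [Finset.mem_sdiff, Finset.mem_union]
        constructor
        · rintro ⟨h3 | h3, h4⟩
          · exact absurd h3 h4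
          · exact h3
        · intro h3
          refine ⟨Or.inr h3, fun h4 => ?_⟩
          have h5 := hs h3
          rw [Finset.mem_sdiff, Finset.mem_union] at h5
          exact h5.2 (Or.inl h4)
      have h3 : A ∪ t = A ∪ t' := h
      rw [← h2 t ht, ← h2 t' ht', h3]
    rw [h1, ← pow_add]
    apply Nat.pow_le_pow_right (by norm_num)
    have h2 : (A ∪ N A).card ≤ M := by
      rw [Finset.card_union_of_disjoint (hdisj A hA)]
      exact hcard A hA
    have h3 := Finset.card_sdiff_add_card_eq_card (hAU A hA)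
    omega
  have hpd : (F : Set (Finset Ed)).PairwiseDisjoint cyl := by
    intro A hA A' hA' hne
    rw [Function.onFun, Finset.disjoint_left]
    intro o ho ho'
    obtain ⟨t, ht, hto⟩ := Finset.mem_image.mp ho
    obtain ⟨t', ht', hto'⟩ := Finset.mem_image.mp ho'
    rw [Finset.mem_powerset] at ht ht'
    have hkey : ∀ B ∈ F, ∀ s : Finset Ed, s ⊆ U \ (B ∪ N B) → Disjoint (N B) (B ∪ s) := by
      intro B hB s hs
      rw [Finset.disjoint_union_right]
      refine ⟨(hdisj B hB).symm, ?_⟩
      rw [Finset.disjoint_left]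
      intro e he he'
      have := hs he'
      rw [Finset.mem_sdiff, Finset.mem_union] at this
      exact this.2 (Or.inr he)
    apply hcyl A hA A' hA' hne
    refine ⟨o, ?_, ?_, ?_, ?_⟩
    · rw [← hto]; exact Finset.subset_union_left
    · rw [← hto]; exact hkey A hA t ht
    · rw [← hto']; exact Finset.subset_union_left
    · rw [← hto']; exact hkey A' hA' t' ht'
  have hsub : F.biUnion cyl ⊆ U.powerset := by
    intro o ho
    rw [Finset.mem_biUnion] at ho
    obtain ⟨A, hA, ho⟩ := ho
    obtain ⟨t, ht, rfl⟩ := Finset.mem_image.mp ho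
    rw [Finset.mem_powerset] at ht ⊢
    exact Finset.union_subset (Finset.subset_union_left.trans (hAU A hA))
      (ht.trans Finset.sdiff_subset)
  have h1 : ∑ A ∈ F, (cyl A).card ≤ 2 ^ U.card := by
    rw [← Finset.card_biUnion (fun A hA A' hA' hne => hpd hA hA' hne), ← Finset.card_powerset]
    exact Finset.card_le_card hsub
  have h2 : F.card * 2 ^ U.card ≤ 2 ^ M * 2 ^ U.card := by
    calc F.card * 2 ^ U.card = ∑ A ∈ F, 2 ^ U.card := by rw [Finset.sum_const, smul_eq_mul]
      _ ≤ ∑ A ∈ F, 2 ^ M * (cyl A).card := Finset.sum_le_sum hcylcard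
      _ = 2 ^ M * ∑ A ∈ F, (cyl A).card := by rw [Finset.mul_sum]
      _ ≤ 2 ^ M * 2 ^ U.card := Nat.mul_le_mul_left _ h1
  exact Nat.le_of_mul_le_mul_right h2 (by positivity)

end Pool.SHQ
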