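import Mathlib
import Pool.Agent.SHQ.Basic
import Pool.Agent.SHQ.Stmts

/-!
# The arcs over a step (K1)
-/

namespace Pool.SHQ

open MeasureTheory Corner

theorem stmtCov : StmtCov := by
  intro L hL c s
  obtain ⟨k, hk1, hk2, hk3, hk4⟩ := ob_spec hL s
  constructor
  · rw [cov_iff_prv, cov_iff_prv]
    constructor
    · rintro ⟨j, hj, h⟩
      rcases Nat.eq_zero_or_pos j with rfl | hj0
      · exact Or.inl hj
      · right
        have hkj : k ≤ j := by
          by_contra hcon
          push Not at hcon
          have h1 := hk4 j hj0 hcon
          have h2 := h 0 (Nat.zero_le _)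
          rw [← hj] at h1
          exact absurd h1 (not_lt.mpr h2)
        refine ⟨j - k, ?_, ?_⟩
        · rw [hk2, ← Function.iterate_add_apply, hj]
          congr 1
          omega
        · intro i hi
          rw [hk2, ← Function.iterate_add_apply]
          exact h (i + k) (by omega)
    · rintro (h | ⟨j, hj, h⟩)
      · refine ⟨0, h, fun i hi => ?_⟩
        have : i = 0 := by omega
        subst this
        rw [h]
        exact le_rfl
      · refine ⟨j + k, ?_, ?_⟩
        · rw [hj, hk2, ← Function.iterate_add_apply]
        · intro i hi
          by_cases hik : k ≤ i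
          · have h1 := h (i - k) (by omega)
            rw [hk2, ← Function.iterate_add_apply] at h1
            have h2 : i - k + k = i := by omega
            rw [h2] at h1
            exact h1
          · have h0 : lv L c ≤ lv L (ob L s) := h 0 (Nat.zero_le _)
            rcases Nat.eq_zero_or_pos i with rfl | hi0
            · exact h0.trans hk3
            · have h3 := hk4 i hi0 (by omega)
              exact (h0.trans hk3).trans h3.le
  · rintro ⟨j, hj, -⟩
    have h1 : s = nxt^[k] (ob L s) := by rw [hk2, nxt_iter_prv]
    rw [hj, ← Function.iterate_add_apply] at h1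
    have h2 : nxt^[0] s = nxt^[k + j] s := h1
    have := nxt_iter_inj h2
    omega

end Pool.SHQ
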