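import Mathlib
import Pool.Agent.SHQ.Basic
import Pool.Agent.SHQ.Stmts

/-!
# An arc passes over finitely many steps (K2)
-/

namespace Pool.SHQ

open MeasureTheory Corner

theorem stmtCovFin : StmtCovFin := by
  intro L hL c
  obtain ⟨k, -, hk2, -, hk4⟩ := sc_spec hL c
  refine ((Finset.range k).finite_toSet.image (fun j => nxt^[j] c)).subset ?_
  intro s hs
  obtain ⟨j, hj, rfl⟩ := (cov_iff_lt hL hk2 hk4).mp hs
  exact ⟨j, by simpa using hj, rfl⟩

end Pool.SHQ
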