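import Mathlib
import Pool.Agent.SHQ.Basic
import Pool.Agent.SHQ.Stmts

/-!
# Crossings of a cut by an arc (K3)
-/

namespace Pool.SHQ

open MeasureTheory Corner

theorem cut_sub (q : Ed) (w : V) (b : Fin 3) :
    ¬ (Sub q w ↔ Sub q (b :: w)) ↔ (w, b) = q := by
  obtain ⟨v, i⟩ := q
  unfold Sub
  rw [List.suffix_cons_iff]
  constructor
  · intro h
    by_contra hne
    apply h
    constructor
    · exact Or.inr
    · rintro (h1 | h1)
      · exfalso
        apply hne
        rw [List.cons.injEq] at h1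
        simp only [Prod.mk.injEq]
        exact ⟨h1.2.symm, h1.1.symm⟩
      · exact h1
  · intro h
    simp only [Prod.mk.injEq] at h
    obtain ⟨rfl, rfl⟩ := h
    intro h1
    have h2 := (h1.mpr (Or.inl rfl)).length_le
    simp at h2

theorem cut_step (q : Ed) (s : Corner) :
    ¬ (Sub q (vtx s) ↔ Sub q (vtx (nxt s))) ↔ edge s = q := by
  rcases step_ends s with ⟨h1, h2⟩ | ⟨h1, h2⟩
  · rw [h1, h2, cut_sub]
  · rw [h1, h2, ← cut_sub q (edge s).1 (edge s).2]
    exact not_congr Iff.comm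

theorem cut_prop {A B C D U d u : Prop} (ih : (A ↔ B) ↔ (D ↔ U)) (hst : ¬ (B ↔ C) ↔ (d ∨ u))
    (h1 : d → ¬ D) (h2 : u → ¬ U) (h3 : ¬ (d ∧ u)) : (A ↔ C) ↔ ((D ∨ d) ↔ (U ∨ u)) := by
  by_cases hd : d
  · have hD := h1 hd
    have hu : ¬ u := fun hu => h3 ⟨hd, hu⟩
    have hBC := hst.mpr (Or.inl hd)
    by_cases hB : B
    · have hC : ¬ C := fun hC => hBC ⟨fun _ => hC, fun _ => hB⟩
      by_cases hU : U <;> by_cases hA : A <;> simp_all
    · have hC : C := by
        by_contra hC; exact hBC ⟨fun h => absurd h hB, fun h => absurd h hC⟩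
      by_cases hU : U <;> by_cases hA : A <;> simp_all
  · by_cases hu : u
    · have hU := h2 hu
      have hBC := hst.mpr (Or.inr hu)
      by_cases hB : B
      · have hC : ¬ C := fun hC => hBC ⟨fun _ => hC, fun _ => hB⟩
        by_cases hD : D <;> by_cases hA : A <;> simp_all
      · have hC : C := by
          by_contra hC; exact hBC ⟨fun h => absurd h hB, fun h => absurd h hC⟩
        by_cases hD : D <;> by_cases hA : A <;> simp_all
    · have hBC : B ↔ C := by
        by_contra hcon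
        rcases hst.mp hcon with h | h
        · exact hd h
        · exact hu h
      rw [← hBC, ih]
      simp [hd, hu]

theorem cut_iter (q : Ed) (c : Corner) (k : ℕ) :
    (Sub q (vtx c) ↔ Sub q (vtx (nxt^[k] c))) ↔
      ((∃ j : ℕ, j < k ∧ dn q.1 q.2 = nxt^[j] c) ↔ (∃ j : ℕ, j < k ∧ up q.1 q.2 = nxt^[j] c)) := by
  induction k with
  | zero => simp
  | succ k ih =>
    have hs : ∀ s : Corner, (∃ j : ℕ, j < k + 1 ∧ s = nxt^[j] c) ↔
        ((∃ j : ℕ, j < k ∧ s = nxt^[j] c) ∨ s = nxt^[k] c) := by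
      intro s
      constructor
      · rintro ⟨j, hj, h⟩
        rcases Nat.lt_succ_iff_lt_or_eq.mp hj with hj | rfl
        · exact Or.inl ⟨j, hj, h⟩
        · exact Or.inr h
      · rintro (⟨j, hj, h⟩ | h)
        · exact ⟨j, by omega, h⟩
        · exact ⟨k, by omega, h⟩
    have hex : ∀ s : Corner, s = nxt^[k] c → ¬ ∃ j : ℕ, j < k ∧ s = nxt^[j] c := by
      rintro s h ⟨j, hj, h'⟩
      rw [h] at h'
      have := nxt_iter_inj h'
      omega
    rw [hs, hs]
    have hst := cut_step q (nxt^[k] c)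
    rw [← Function.iterate_succ_apply' nxt, edge_eq_iff] at hst
    have hne : dn q.1 q.2 ≠ up q.1 q.2 := by simp
    have h1 := hex (dn q.1 q.2)
    have h2 := hex (up q.1 q.2)
    have h3 : ¬ (dn q.1 q.2 = nxt^[k] c ∧ up q.1 q.2 = nxt^[k] c) :=
      fun h => hne (h.1.trans h.2.symm)
    have h4 : (nxt^[k] c = dn q.1 q.2) ↔ (dn q.1 q.2 = nxt^[k] c) := eq_comm
    have h5 : (nxt^[k] c = up q.1 q.2) ↔ (up q.1 q.2 = nxt^[k] c) := eq_comm
    rw [h4, h5] at hst
    exact cut_prop ih hst h1 h2 h3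

theorem stmtCut : StmtCut := by
  intro L hL q c
  obtain ⟨k, -, hk2, -, hk4⟩ := sc_spec hL c
  rw [cov_iff_lt hL hk2 hk4, cov_iff_lt hL hk2 hk4, hk2, cut_iter]

end Pool.SHQ
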