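import Mathlib
import Pool.Agent.SHQ.Basic
import Pool.Agent.SHQ.Stmts

/-!
# K11: the arcs of a path determine the path
-/

namespace Pool.SHQ

open MeasureTheory Corner

theorem det_path {G : SimpleGraph V} {u v : V} (p : G.Walk u v) :
    ∀ p' : G.Walk u v, p.IsPath → p'.IsPath → (∀ e, e ∈ p.edges ↔ e ∈ p'.edges) → p = p' := by
  induction p with
  | nil =>
    intro p' _ hp' _
    exact (SimpleGraph.Walk.eq_nil_iff_nil.2 (SimpleGraph.Walk.isPath_iff_nil.1 hp')).symm
  | @cons u w v h q ih =>
    intro p' hp hp' he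
    rw [SimpleGraph.Walk.cons_isPath_iff] at hp
    cases p' with
    | nil =>
      have := (he s(u, w)).1 (by simp)
      simp at this
    | @cons _ w' _ h' q' =>
      rw [SimpleGraph.Walk.cons_isPath_iff] at hp'
      have h1 : s(u, w) ∈ (SimpleGraph.Walk.cons h' q').edges := (he s(u, w)).1 (by simp)
      rw [SimpleGraph.Walk.edges_cons, List.mem_cons] at h1
      have h2 : s(u, w) ∉ q'.edges := fun hmem =>
        hp'.2 (SimpleGraph.Walk.fst_mem_support_of_mem_edges _ hmem)
      have h3 : s(u, w) = s(u, w') := h1.resolve_right h2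
      have h4 : w = w' := by
        rcases Sym2.eq_iff.1 h3 with h5 | h5
        · exact h5.2
        · rw [h5.2, ← h5.1]
      subst h4
      congr 1
      apply ih q' hp.1 hp'.1
      intro e
      have h5 := he e
      rw [SimpleGraph.Walk.edges_cons, SimpleGraph.Walk.edges_cons, List.mem_cons,
        List.mem_cons] at h5
      have h6 : e ∈ q.edges → e ≠ s(u, w) := by
        rintro hmem rfl
        exact hp.2 (SimpleGraph.Walk.fst_mem_support_of_mem_edges _ hmem)
      have h7 : e ∈ q'.edges → e ≠ s(u, w) := by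
        rintro hmem rfl
        exact h2 hmem
      constructor
      · intro hmem
        exact (h5.1 (Or.inr hmem)).resolve_left (h6 hmem)
      · intro hmem
        exact (h5.2 (Or.inr hmem)).resolve_left (h7 hmem)

theorem det_mem {L : V → ℤ} {a : Sym2 V → Corner} (ha : ArcOf L a) {u v : V}
    (p : (shiq L).Walk u v) (e : Sym2 V) :
    e ∈ p.edges ↔ ∃ c ∈ arcs L a p, s(vtx c, vtx (sc L c)) = e := by
  classical
  have hedge : ∀ e ∈ p.edges, s(vtx (a e), vtx (sc L (a e))) = e := by
    intro e he
    have h1 := p.edges_subset_edgeSet he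
    induction e with
    | _ x y => exact ha x y h1
  unfold arcs
  simp only [List.mem_toFinset, List.mem_map]
  constructor
  · intro he
    exact ⟨a e, ⟨e, he, rfl⟩, hedge e he⟩
  · rintro ⟨c, ⟨e', he', rfl⟩, h⟩
    rw [hedge e' he'] at h
    rw [← h]
    exact he'

theorem stmtDet : StmtDet := by
  intro L hL a ha u v p p' hp hp' h
  apply det_path p p' hp hp'
  intro e
  rw [det_mem ha p e, det_mem ha p' e, h]

end Pool.SHQ
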