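import Mathlib
import Pool.Agent.SHQ.Basic
import Pool.Agent.SHQ.Stmts

/-!
# A boundary has even degree at every vertex (K7)
-/

namespace Pool.SHQ

open MeasureTheory Corner

open Classical in
/-- indicator mod 2 -/
noncomputable def evI (p : Prop) : ZMod 2 := if p then 1 else 0

theorem evI_true {p : Prop} (h : p) : evI p = 1 := if_pos h

theorem evI_false {p : Prop} (h : ¬ p) : evI p = 0 := if_neg h

theorem evI_congr {p q : Prop} (h : p ↔ q) : evI p = evI q := by rw [propext h]

theorem ev_two : (1 : ZMod 2) + 1 = 0 := by decide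

theorem ev_self (a : ZMod 2) : a + a = 0 := by revert a; decide

theorem evI_xor (p q : Prop) : evI (¬ (p ↔ q)) = evI p + evI q := by
  by_cases hp : p
  · by_cases hq : q
    · rw [evI_true hp, evI_true hq, evI_false (fun h => h ⟨fun _ => hq, fun _ => hp⟩), ev_two]
    · rw [evI_true hp, evI_false hq, evI_true (fun h => hq (h.mp hp)), add_zero]
  · by_cases hq : q
    · rw [evI_false hp, evI_true hq, evI_true (fun h => hp (h.mpr hq)), zero_add]
    · rw [evI_false hp, evI_false hq,
        evI_false (fun h => h ⟨fun h => absurd h hp, fun h => absurd h hq⟩), add_zero]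

theorem evI_or {p q : Prop} (h : ¬ (p ∧ q)) : evI (p ∨ q) = evI p + evI q := by
  by_cases hp : p
  · have hq : ¬ q := fun hq => h ⟨hp, hq⟩
    rw [evI_true hp, evI_false hq, evI_true (Or.inl hp), add_zero]
  · rw [evI_false hp, zero_add]
    exact evI_congr ⟨fun h => h.resolve_left hp, Or.inr⟩

theorem ev_card (Y : Finset Corner) (p : Corner → Prop) [DecidablePred p] :
    ((Y.filter p).card : ZMod 2) = ∑ c ∈ Y, evI (p c) := by
  rw [← Finset.sum_boole]
  refine Finset.sum_congr rfl fun c _ => ?_
  by_cases h : p c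
  · rw [if_pos h, evI_true h]
  · rw [if_neg h, evI_false h]

theorem ev_ob_hgt {L : V → ℤ} (hL : Good L) (s : Corner) : hgt (ob L s) + 1 ≤ hgt s := by
  obtain ⟨k, hk, h1, -, -⟩ := ob_spec hL s
  have := hgt_iter (ob L s) k
  rw [h1, nxt_iter_prv] at this
  rw [h1]
  omega

theorem ev_ob_iter {L : V → ℤ} (hL : Good L) (s : Corner) (N : ℕ) :
    hgt ((ob L)^[N] s) + N ≤ hgt s := by
  induction N with
  | zero => simp
  | succ N ih =>
    rw [Function.iterate_succ_apply']
    have := ev_ob_hgt hL ((ob L)^[N] s)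
    push_cast
    omega

/-- the number of arcs of a boundary over a side of the tree -/
theorem ev_al (hCov : StmtCov) {L : V → ℤ} (hL : Good L) {K : Finset Ed} {Y : Finset Corner}
    (hY : IsBd L K Y) (s : Corner) : ∑ c ∈ Y, evI (Cov L c s) = evI (edge s ∈ K) := by
  classical
  have step : ∀ s : Corner, ∑ c ∈ Y, evI (Cov L c s) + evI (edge s ∈ K) =
      ∑ c ∈ Y, evI (Cov L c (ob L s)) + evI (edge (ob L s) ∈ K) := by
    intro s
    have h1 : ∑ c ∈ Y, evI (Cov L c s) = evI (s ∈ Y) + ∑ c ∈ Y, evI (Cov L c (ob L s)) := by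
      have h2 : ∀ c ∈ Y, evI (Cov L c s) = (if s = c then 1 else 0) + evI (Cov L c (ob L s)) := by
        intro c _
        obtain ⟨h3, h4⟩ := hCov L hL c s
        have h5 : ¬ (c = s ∧ Cov L c (ob L s)) := by
          rintro ⟨h6, h7⟩
          rw [h6] at h7
          exact h4 h7
        rw [evI_congr h3, evI_or h5]
        congr 1
        by_cases h : s = c
        · rw [if_pos h, evI_true h.symm]
        · rw [if_neg h, evI_false (fun h' => h h'.symm)]
      rw [Finset.sum_congr rfl h2, Finset.sum_add_distrib, Finset.sum_ite_eq]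
      congr 1
      by_cases h : s ∈ Y
      · rw [if_pos h, evI_true h]
      · rw [if_neg h, evI_false h]
    rw [h1, evI_congr (hY s), evI_xor]
    have h5 := ev_self (evI (edge s ∈ K))
    calc evI (edge s ∈ K) + evI (edge (ob L s) ∈ K) + ∑ c ∈ Y, evI (Cov L c (ob L s)) +
          evI (edge s ∈ K) = (evI (edge s ∈ K) + evI (edge s ∈ K)) +
          (∑ c ∈ Y, evI (Cov L c (ob L s)) + evI (edge (ob L s) ∈ K)) := by ring
      _ = _ := by rw [h5, zero_add]
  have iter : ∀ N : ℕ, ∑ c ∈ Y, evI (Cov L c s) + evI (edge s ∈ K) =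
      ∑ c ∈ Y, evI (Cov L c ((ob L)^[N] s)) + evI (edge ((ob L)^[N] s) ∈ K) := by
    intro N
    induction N with
    | zero => rfl
    | succ N ih => rw [ih, step, Function.iterate_succ_apply']
  -- a lower bound for the heights
  obtain ⟨b, hb⟩ : ∃ b : ℤ, ∀ c ∈ Y ∪ (K.image (fun q => dn q.1 q.2) ∪
      K.image (fun q => up q.1 q.2)), b ≤ hgt c := by
    have := (((Y ∪ (K.image (fun q => dn q.1 q.2) ∪
      K.image (fun q => up q.1 q.2))).image hgt).finite_toSet).bddBelow
    obtain ⟨b, hb⟩ := this
    exact ⟨b, fun c hc => hb (Finset.mem_coe.mpr (Finset.mem_image_of_mem _ hc))⟩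
  obtain ⟨N, hN⟩ : ∃ N : ℕ, hgt s - b < N := ⟨(hgt s - b + 1).toNat, by omega⟩
  have hlow := ev_ob_iter hL s N
  have h0 : ∑ c ∈ Y, evI (Cov L c ((ob L)^[N] s)) + evI (edge ((ob L)^[N] s) ∈ K) = 0 := by
    rw [Finset.sum_eq_zero, zero_add, evI_false]
    · intro h
      have h1 := (edge_eq_iff _ _).mp (rfl : edge ((ob L)^[N] s) = edge ((ob L)^[N] s))
      have h2 : (ob L)^[N] s ∈ Y ∪ (K.image (fun q => dn q.1 q.2) ∪
          K.image (fun q => up q.1 q.2)) := by
        rw [Finset.mem_union, Finset.mem_union]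
        right
        rcases h1 with h1 | h1
        · left
          rw [Finset.mem_image]
          exact ⟨_, h, h1.symm⟩
        · right
          rw [Finset.mem_image]
          exact ⟨_, h, h1.symm⟩
      have := hb _ h2
      omega
    · intro c hc
      apply evI_false
      rintro ⟨j, hj, -⟩
      have h1 := hb c (Finset.mem_union_left _ hc)
      have h2 := hgt_iter c j
      rw [← hj] at h2
      omega
  have h1 := iter N
  rw [h0] at h1
  have h2 := ev_self (evI (edge s ∈ K))
  calc ∑ c ∈ Y, evI (Cov L c s) = ∑ c ∈ Y, evI (Cov L c s) + (evI (edge s ∈ K) +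
        evI (edge s ∈ K)) := by rw [h2, add_zero]
    _ = (∑ c ∈ Y, evI (Cov L c s) + evI (edge s ∈ K)) + evI (edge s ∈ K) := by ring
    _ = evI (edge s ∈ K) := by rw [h1, zero_add]

/-- a boundary crosses the cut of a tree edge an even number of times -/
theorem ev_cut (hCov : StmtCov) (hCut : StmtCut) {L : V → ℤ} (hL : Good L) {K : Finset Ed}
    {Y : Finset Corner} (hY : IsBd L K Y) (q : Ed) :
    ∑ c ∈ Y, (evI (Sub q (vtx c)) + evI (Sub q (vtx (sc L c)))) = 0 := by
  have h1 : ∀ c ∈ Y, (evI (Sub q (vtx c)) + evI (Sub q (vtx (sc L c)))) =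
      evI (Cov L c (dn q.1 q.2)) + evI (Cov L c (up q.1 q.2)) := by
    intro c _
    rw [← evI_xor, ← evI_xor]
    exact evI_congr (hCut L hL q c)
  rw [Finset.sum_congr rfl h1, Finset.sum_add_distrib, ev_al hCov hL hY, ev_al hCov hL hY]
  exact ev_self _

/-- a vertex as a difference of subtrees -/
theorem ev_vert (v a : V) : evI (a = v) = evI (v <:+ a) + ∑ i : Fin 3, evI (Sub (v, i) a) := by
  unfold Sub
  dsimp only
  by_cases h : v <:+ a
  · obtain ⟨t, rfl⟩ := h
    rw [evI_true (List.suffix_append t v)]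
    rcases List.eq_nil_or_concat' t with rfl | ⟨t, j, rfl⟩
    · rw [List.nil_append, evI_true rfl, Finset.sum_eq_zero, add_zero]
      intro i _
      apply evI_false
      intro h
      have := h.length_le
      simp at this
    · have h1 : ¬ (t ++ [j] ++ v = v) := by
        intro h
        have := congrArg List.length h
        simp at this
        omega
      rw [evI_false h1]
      have h2 : ∀ i : Fin 3, evI (i :: v <:+ t ++ [j] ++ v) = if j = i then 1 else 0 := by
        intro i
        have h3 : t ++ [j] ++ v = t ++ j :: v := by simp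
        rw [h3]
        by_cases hij : j = i
        · rw [if_pos hij, hij]
          exact evI_true (List.suffix_append _ _)
        · rw [if_neg hij]
          apply evI_false
          intro h4
          obtain ⟨t', ht'⟩ := h4
          have h5 : t'.length = t.length := by
            have := congrArg List.length ht'
            simp at this
            omega
          have h6 := (List.append_inj ht' h5).2
          simp at h6
          exact hij h6.symm
      rw [Finset.sum_congr rfl (fun i _ => h2 i), Finset.sum_ite_eq]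
      simp [ev_two]
  · rw [evI_false h, Finset.sum_eq_zero, add_zero]
    · apply evI_false
      rintro rfl
      exact h (List.suffix_refl _)
    · intro i _
      apply evI_false
      intro h1
      exact h ((List.suffix_cons i v).trans h1)

theorem stmtEven_of (hCov : StmtCov) (hCut : StmtCut) : StmtEven := by
  intro L hL K Y hY v
  rw [← ZMod.natCast_eq_zero_iff_even, ev_card]
  have h1 : ∀ c ∈ Y, evI (vtx c = v ∨ vtx (sc L c) = v) =
      (evI (v <:+ vtx c) + evI (v <:+ vtx (sc L c))) +
        ∑ i : Fin 3, (evI (Sub (v, i) (vtx c)) + evI (Sub (v, i) (vtx (sc L c)))) := by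
    intro c _
    have hne : ¬ (vtx c = v ∧ vtx (sc L c) = v) := by
      rintro ⟨h1, h2⟩
      obtain ⟨k, -, -, h3, -⟩ := sc_spec hL c
      unfold lv at h3
      rw [h1, h2] at h3
      omega
    rw [evI_or hne, ev_vert v (vtx c), ev_vert v (vtx (sc L c)), Finset.sum_add_distrib]
    ring
  rw [Finset.sum_congr rfl h1, Finset.sum_add_distrib, Finset.sum_comm]
  have h2 : ∑ i : Fin 3, ∑ c ∈ Y, (evI (Sub (v, i) (vtx c)) + evI (Sub (v, i) (vtx (sc L c)))) = 0 :=
    Finset.sum_eq_zero fun i _ => ev_cut hCov hCut hL hY (v, i)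
  rw [h2, add_zero]
  rcases v with _ | ⟨j, u⟩
  · apply Finset.sum_eq_zero
    intro c _
    rw [evI_true (List.nil_suffix), evI_true (List.nil_suffix), ev_two]
  · exact ev_cut hCov hCut hL hY (u, j)

end Pool.SHQ
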