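import Pool.Agent.SHQ.Basic
import Pool.Agent.SHQ.Stmts

/-!
# K6: faces of the tree which touch a finite set of edges
-/

namespace Pool.SHQ

open Corner

/-- top of the face on the side `dn v i` -/
def topD_Face : V → Fin 3 → Corner
  | [], 0 => dn [] 0
  | i :: v, 0 => topD_Face v i
  | v, 1 => dn v 1
  | v, 2 => dn v 2

/-- top of the face on the side `up v i` -/
def topU_Face : V → Fin 3 → Corner
  | v, 0 => dn v 1
  | v, 1 => dn v 2
  | [], 2 => dn [] 0
  | j :: u, 2 => topU_Face u j

/-- top of a face -/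
def top_Face : Corner → Corner
  | dn v i => topD_Face v i
  | up v i => topU_Face v i

theorem topD1_Face (v : V) : topD_Face v 1 = dn v 1 := by
  cases v <;> rfl

theorem topD2_Face (v : V) : topD_Face v 2 = dn v 2 := by
  cases v <;> rfl

theorem topU0_Face (v : V) : topU_Face v 0 = dn v 1 := by
  cases v <;> rfl

theorem topU1_Face (v : V) : topU_Face v 1 = dn v 2 := by
  cases v <;> rfl

theorem top_nxt_Face (c : Corner) : top_Face (nxt c) = top_Face c := by
  rcases c with ⟨v, i⟩ | ⟨v, i⟩
  · rfl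
  · fin_cases i
    · show topD_Face v 1 = topU_Face v 0
      rw [topD1_Face, topU0_Face]
    · show topD_Face v 2 = topU_Face v 1
      rw [topD2_Face, topU1_Face]
    · rcases v with _ | ⟨j, u⟩
      · rfl
      · rfl

theorem top_prv_Face (c : Corner) : top_Face (prv c) = top_Face c := by
  rw [← top_nxt_Face (prv c), nxt_prv]

theorem top_iter_Face (c : Corner) (k : ℕ) : top_Face (prv^[k] c) = top_Face c := by
  induction k with
  | zero => rfl
  | succ k ih => rw [Function.iterate_succ_apply', top_prv_Face, ih]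

theorem hgt_iter_prv_Face (c : Corner) (k : ℕ) (hk : 1 ≤ k) : hgt (prv^[k] c) < hgt c := by
  have h := hgt_iter (prv^[k] c) k
  rw [nxt_iter_prv] at h
  omega

/-- the corners with edge in `K` -/
def sides_Face (K : Finset Ed) : Finset Corner :=
  K.image (fun q => dn q.1 q.2) ∪ K.image (fun q => up q.1 q.2)

theorem mem_sides_Face (K : Finset Ed) (c : Corner) : c ∈ sides_Face K ↔ edge c ∈ K := by
  unfold sides_Face
  rw [Finset.mem_union, Finset.mem_image, Finset.mem_image]
  rcases c with ⟨v, i⟩ | ⟨v, i⟩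
  · simp [edge]
  · simp [edge]

theorem exists_out_Face {L : V → ℤ} (hL : Good L) (K : Finset Ed) (s : Corner)
    (hs : edge s ∈ K) : ∃ c, edge c ∈ K ∧ edge (ob L c) ∉ K ∧ top_Face c = top_Face s := by
  classical
  set S := (sides_Face K).filter (fun c => top_Face c = top_Face s) with hS
  have hne : S.Nonempty := ⟨s, by rw [hS, Finset.mem_filter, mem_sides_Face]; exact ⟨hs, rfl⟩⟩
  obtain ⟨c, hc, hmin⟩ := Finset.exists_min_image S hgt hne
  rw [hS, Finset.mem_filter, mem_sides_Face] at hc
  refine ⟨c, hc.1, ?_, hc.2⟩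
  intro hcon
  obtain ⟨k, hk, hk1, _, _⟩ := ob_spec hL c
  have h1 : ob L c ∈ S := by
    rw [hS, Finset.mem_filter, mem_sides_Face]
    refine ⟨hcon, ?_⟩
    rw [hk1, top_iter_Face, hc.2]
  have h2 := hmin _ h1
  have h3 := hgt_iter_prv_Face c k hk
  rw [← hk1] at h3
  omega

theorem count_Face (K : Finset Ed) (T : Finset Corner)
    (hT : ∀ s, edge s ∈ K → top_Face s ∈ T) (p : V) :
    2 * (K.filter (fun q => q.1 = p)).card ≤ 3 * (T.filter (fun t => vtx t = p)).card := by
  classical
  have h0 : (p, (0 : Fin 3)) ∈ K → dn p 1 ∈ T := fun h => by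
    have := hT (up p 0) h
    rwa [show top_Face (up p 0) = dn p 1 from topU0_Face p] at this
  have h1 : (p, (1 : Fin 3)) ∈ K → dn p 1 ∈ T := fun h => by
    have := hT (dn p 1) h
    rwa [show top_Face (dn p 1) = dn p 1 from topD1_Face p] at this
  have h1' : (p, (1 : Fin 3)) ∈ K → dn p 2 ∈ T := fun h => by
    have := hT (up p 1) h
    rwa [show top_Face (up p 1) = dn p 2 from topU1_Face p] at this
  have h2 : (p, (2 : Fin 3)) ∈ K → dn p 2 ∈ T := fun h => by
    have := hT (dn p 2) h
    rwa [show top_Face (dn p 2) = dn p 2 from topD2_Face p] at this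
  have e1 : (K.filter (fun q => q.1 = p)).card ≤
      ((Finset.univ : Finset (Fin 3)).filter (fun i => (p, i) ∈ K)).card := by
    refine le_trans (Finset.card_le_card ?_) (Finset.card_image_le (f := fun i => (p, i)))
    intro q hq
    rw [Finset.mem_filter] at hq
    rw [Finset.mem_image]
    refine ⟨q.2, ?_, ?_⟩
    · rw [Finset.mem_filter]
      refine ⟨Finset.mem_univ _, ?_⟩
      rw [← hq.2]
      exact hq.1
    · rw [← hq.2]
  have e2 : ((({1, 2} : Finset (Fin 3))).filter (fun i => dn p i ∈ T)).card ≤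
      (T.filter (fun t => vtx t = p)).card := by
    rw [← Finset.card_image_of_injective (f := fun i => dn p i) _
      (fun i j h => by simpa using h)]
    refine Finset.card_le_card ?_
    intro t ht
    rw [Finset.mem_image] at ht
    obtain ⟨i, hi, rfl⟩ := ht
    rw [Finset.mem_filter] at hi ⊢
    exact ⟨hi.2, rfl⟩
  refine le_trans (Nat.mul_le_mul_left 2 e1) (le_trans ?_ (Nat.mul_le_mul_left 3 e2))
  rw [Finset.card_filter, Finset.card_filter, Fin.sum_univ_three,
    Finset.sum_pair (by decide)]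
  by_cases k0 : (p, (0 : Fin 3)) ∈ K <;> by_cases k1 : (p, (1 : Fin 3)) ∈ K <;>
    by_cases k2 : (p, (2 : Fin 3)) ∈ K <;> by_cases t1 : dn p 1 ∈ T <;>
    by_cases t2 : dn p 2 ∈ T <;> simp_all

theorem stmtFace : StmtFace := by
  intro L hL K Y hY
  classical
  set T : Finset Corner := (sides_Face K).image top_Face with hTdef
  have hT : ∀ s, edge s ∈ K → top_Face s ∈ T := fun s hs =>
    Finset.mem_image_of_mem _ ((mem_sides_Face K s).2 hs)
  have hcard : T.card ≤ (Y.filter (fun c => edge c ∈ K)).card := by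
    refine le_trans (Finset.card_le_card ?_) (Finset.card_image_le (f := top_Face))
    intro t ht
    rw [hTdef, Finset.mem_image] at ht
    obtain ⟨s, hs, rfl⟩ := ht
    rw [mem_sides_Face] at hs
    obtain ⟨c, hc1, hc2, hc3⟩ := exists_out_Face hL K s hs
    rw [Finset.mem_image]
    refine ⟨c, ?_, hc3⟩
    rw [Finset.mem_filter]
    refine ⟨?_, hc1⟩
    rw [hY]
    intro hcon
    exact hc2 (hcon.1 hc1)
  set P : Finset V := K.image Prod.fst with hP
  have hK : K.card = ∑ p ∈ P, (K.filter (fun q => q.1 = p)).card :=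
    Finset.card_eq_sum_card_fiberwise (fun q hq => Finset.mem_image_of_mem _ hq)
  have hT2 : ∑ p ∈ P, (T.filter (fun t => vtx t = p)).card ≤ T.card := by
    have h1 : (T.filter (fun t => vtx t ∈ P)).card =
        ∑ p ∈ P, ((T.filter (fun t => vtx t ∈ P)).filter (fun t => vtx t = p)).card :=
      Finset.card_eq_sum_card_fiberwise (fun t ht => (Finset.mem_filter.1 ht).2)
    have h2 : ∑ p ∈ P, (T.filter (fun t => vtx t = p)).card
        = ∑ p ∈ P, ((T.filter (fun t => vtx t ∈ P)).filter (fun t => vtx t = p)).card := by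
      refine Finset.sum_congr rfl fun p hp => ?_
      congr 1
      ext t
      simp only [Finset.mem_filter]
      constructor
      · rintro ⟨h3, h4⟩
        exact ⟨⟨h3, h4 ▸ hp⟩, h4⟩
      · rintro ⟨⟨h3, _⟩, h4⟩
        exact ⟨h3, h4⟩
    rw [h2, ← h1]
    exact Finset.card_filter_le _ _
  calc 2 * K.card = ∑ p ∈ P, 2 * (K.filter (fun q => q.1 = p)).card := by
        rw [hK, Finset.mul_sum]
    _ ≤ ∑ p ∈ P, 3 * (T.filter (fun t => vtx t = p)).card :=
        Finset.sum_le_sum fun p _ => count_Face K T hT p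
    _ = 3 * ∑ p ∈ P, (T.filter (fun t => vtx t = p)).card := by rw [Finset.mul_sum]
    _ ≤ 3 * T.card := Nat.mul_le_mul_left 3 hT2
    _ ≤ _ := Nat.mul_le_mul_left 3 hcard

end Pool.SHQ
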