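import Mathlib
import Pool.Agent.SHQ.Basic
import Pool.Agent.SHQ.Stmts

/-!
# There are finitely many self-avoiding walks of given length (K16)
-/

namespace Pool.SHQ

open MeasureTheory Corner

theorem fin_corners (v : V) : {c : Corner | vtx c = v}.Finite := by
  rcases v with _ | ⟨j, u⟩
  · refine (Set.finite_range (fun i : Fin 3 => dn ([] : V) i)).subset ?_
    rintro (⟨w, i⟩ | ⟨w, i⟩) h
    · have h : w = [] := h
      subst h
      exact ⟨i, rfl⟩
    · have h : i :: w = [] := h
      simp at h
  · refine ((Set.finite_range (fun i : Fin 3 => dn (j :: u) i)).union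
      (Set.finite_singleton (up u j))).subset ?_
    rintro (⟨w, i⟩ | ⟨w, i⟩) h
    · have h : w = j :: u := h
      subst h
      exact Or.inl ⟨i, rfl⟩
    · have h : i :: w = j :: u := h
      rw [List.cons.injEq] at h
      obtain ⟨rfl, rfl⟩ := h
      exact Or.inr rfl

theorem fin_pred {L : V → ℤ} (hL : Good L) (b : Corner) : {c : Corner | sc L c = b}.Finite := by
  obtain ⟨K, hK1, hK2⟩ := hL.bwd b
  refine ((Finset.range K).finite_toSet.image (fun j => prv^[j] b)).subset ?_
  intro c hc
  have hc : sc L c = b := hc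
  obtain ⟨k, hk1, hk2, hk3, hk4⟩ := sc_spec hL c
  rw [hc] at hk2 hk3
  have h1 : c = prv^[k] b := eq_nxt_iter_iff.mp hk2
  refine ⟨k, ?_, h1.symm⟩
  rw [Finset.mem_coe, Finset.mem_range]
  by_contra hcon
  push Not at hcon
  have h2 : prv^[K] b = nxt^[k - K] c := by
    rw [h1]
    have h3 : prv^[k] b = prv^[k - K] (prv^[K] b) := by
      rw [← Function.iterate_add_apply]; congr 1; omega
    rw [h3, nxt_iter_prv]
  have h3 := hk4 (k - K) (by omega)
  rw [← h2] at h3
  omega

theorem fin_neighbours {L : V → ℤ} (hL : Good L) (v : V) : {w : V | (shiq L).Adj v w}.Finite := by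
  have h1 : ((fun c => vtx (sc L c)) '' {c : Corner | vtx c = v}).Finite :=
    (fin_corners v).image _
  have h2 : (vtx '' (⋃ b ∈ {b : Corner | vtx b = v}, {c : Corner | sc L c = b})).Finite := by
    apply Set.Finite.image
    exact (fin_corners v).biUnion fun b _ => fin_pred hL b
  refine (h1.union h2).subset ?_
  intro w hw
  obtain ⟨c, hc | hc⟩ := (adj_iff hL v w).mp hw
  · exact Or.inl ⟨c, hc.1, hc.2⟩
  · refine Or.inr ⟨c, ?_, hc.1⟩
    rw [Set.mem_iUnion₂]
    exact ⟨sc L c, hc.2, rfl⟩

theorem fin_walks {G : SimpleGraph V} (hG : ∀ v : V, {w : V | G.Adj v w}.Finite) (n : ℕ) :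
    ∀ r : V, {p : Σ v : V, G.Walk r v | p.2.length = n}.Finite := by
  induction n with
  | zero =>
    intro r
    refine (Set.finite_singleton (⟨r, SimpleGraph.Walk.nil⟩ : Σ v : V, G.Walk r v)).subset ?_
    rintro ⟨v, p⟩ hp
    have hp : p.length = 0 := hp
    cases p with
    | nil => rfl
    | cons h q => simp at hp
  | succ n ih =>
    intro r
    have hfin := hG r
    have : Finite {w : V | G.Adj r w} := hfin
    have h1 : (⋃ w : {w : V | G.Adj r w},
        (fun p : (Σ v : V, G.Walk w.1 v) => (⟨p.1, SimpleGraph.Walk.cons w.2 p.2⟩ :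
          Σ v : V, G.Walk r v)) '' {p : Σ v : V, G.Walk w.1 v | p.2.length = n}).Finite :=
      Set.finite_iUnion fun w => (ih w.1).image _
    refine h1.subset ?_
    rintro ⟨v, p⟩ hp
    have hp : p.length = n + 1 := hp
    cases p with
    | nil => simp at hp
    | @cons _ w _ h q =>
      rw [Set.mem_iUnion]
      refine ⟨⟨w, h⟩, ⟨v, q⟩, ?_, rfl⟩
      simpa using hp

theorem stmtFin : StmtFin := by
  intro L hL r n
  refine (fin_walks (fin_neighbours hL) n r).subset ?_
  rintro p hp
  exact hp.2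

end Pool.SHQ
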