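import Mathlib
import Pool.Agent.SHQ.Basic
import Pool.Agent.SHQ.Stmts

/-!
# K19: ballisticity for good labels
-/

namespace Pool.SHQ

open Corner

theorem Main_nonempty (hOut : StmtOut) (hFin : StmtFin) (hLow : StmtLow) (L : V → ℤ) (hL : Good L)
    (n : ℕ) (hn : 1 ≤ n) : (saws (shiq L) [] n).Nonempty := by
  rcases Nat.lt_or_ge n 2 with h | h
  · have hn1 : n = 1 := by omega
    subst hn1
    obtain ⟨S, hS, hadj⟩ := (hOut L hL).2
    have hne : S.Nonempty := by
      rw [← Finset.card_pos]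
      omega
    obtain ⟨y, hy⟩ := hne
    have h1 := (hadj y hy).1
    refine ⟨⟨y, SimpleGraph.Walk.cons h1 SimpleGraph.Walk.nil⟩, ?_, ?_⟩
    · show (SimpleGraph.Walk.cons h1 SimpleGraph.Walk.nil).IsPath
      simp [SimpleGraph.Walk.cons_isPath_iff, h1.ne]
    · rfl
  · have h1 := hLow L hL 1 n le_rfl (by omega) {[]} (by
      intro x hx
      rw [Finset.mem_singleton] at hx
      subst hx
      exact ⟨SimpleGraph.Reachable.refl _, by simp⟩)
    have h2 : 0 < (saws (shiq L) [] n).ncard := by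
      rcases Nat.eq_zero_or_pos (saws (shiq L) [] n).ncard with h0 | h0
      · exfalso
        rw [h0] at h1
        have : 0 < 3 ^ 1 * 4 ^ (n - 2 * 1) := by positivity
        simp at h1
      · exact h0
    exact (Set.ncard_pos (hFin L hL [] n)).1 h2

theorem Main_fiber (hUp : StmtUp) (L : V → ℤ) (hL : Good L) (n m : ℕ)
    (S : Finset (Σ v : V, (shiq L).Walk [] v)) (hS : ∀ p ∈ S, p.2.IsPath ∧ p.2.length = n)
    (x : V) (hr : (shiq L).Reachable [] x) (hd : (shiq L).dist [] x ≤ m) :
    (S.filter fun p => p.1 = x).card ≤ 4 ^ m * 2 ^ (7 * (n + m) / 4) := by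
  classical
  obtain ⟨π, hπ, hlen⟩ := hr.exists_path_of_dist
  set W : Finset ((shiq L).Walk [] x) :=
    S.preimage (Sigma.mk x) (sigma_mk_injective.injOn) with hW
  have h1 : (S.filter fun p => p.1 = x) ⊆ W.image (Sigma.mk x) := by
    rintro ⟨y, w⟩ hp
    obtain ⟨hp1, hp2⟩ := Finset.mem_filter.1 hp
    simp only at hp2
    subst hp2
    exact Finset.mem_image.2 ⟨w, Finset.mem_preimage.2 hp1, rfl⟩
  have h2 := (Finset.card_le_card h1).trans Finset.card_image_le
  have h3 := hUp L hL x _ n π hπ hlen W fun w hw => hS _ (Finset.mem_preimage.1 hw)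
  refine (h2.trans h3).trans ?_
  refine Nat.mul_le_mul (Nat.pow_le_pow_right (by norm_num) hd)
    (Nat.pow_le_pow_right (by norm_num) ?_)
  exact Nat.div_le_div_right (by omega)

theorem stmtMain_of : StmtOut → StmtUp → StmtFin → StmtLow → StmtNum → StmtMain := by
  intro hOut hUp hFin hLow hNum L hL n hn
  classical
  have hfin := hFin L hL [] n
  have hne := Main_nonempty hOut hFin hLow L hL n hn
  refine ⟨hfin, hne, ?_⟩
  set S : Finset (Σ v : V, (shiq L).Walk [] v) := hfin.toFinset with hSdef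
  have hSmem : ∀ p, p ∈ S ↔ p.2.IsPath ∧ p.2.length = n := by
    intro p
    rw [hSdef, Set.Finite.mem_toFinset]
    rfl
  have hSpos : 0 < S.card := by
    rw [Finset.card_pos, hSdef, Set.Finite.toFinset_nonempty]
    exact hne
  have hmean : meanDist (shiq L) [] n = (∑ p ∈ S, ((shiq L).dist [] p.1 : ℝ)) / (S.card : ℝ) := by
    unfold meanDist
    rw [finsum_mem_eq_finite_toFinset_sum _ hfin, Set.ncard_eq_toFinset_card _ hfin]
  rw [hmean, le_div_iff₀ (by exact_mod_cast hSpos)]
  rcases Nat.lt_or_ge n 64 with h64 | h64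
  · have h1 : ∀ p ∈ S, (1 : ℝ) ≤ ((shiq L).dist [] p.1 : ℝ) := by
      rintro ⟨x, w⟩ hp
      obtain ⟨hp1, hp2⟩ := (hSmem _).1 hp
      have hne' : ([] : V) ≠ x := by
        rintro rfl
        have h0 : w.Nil := SimpleGraph.Walk.isPath_iff_nil.1 hp1
        have h00 : w.length = 0 := SimpleGraph.Walk.length_eq_zero_iff.2 h0
        have hp3 : w.length = n := hp2
        omega
      have := (SimpleGraph.Walk.reachable w).pos_dist_of_ne hne'
      exact_mod_cast this
    have h2 := Finset.sum_le_sum h1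
    rw [Finset.sum_const, nsmul_eq_mul, mul_one] at h2
    refine le_trans ?_ h2
    have h3 : (n : ℝ) ≤ 64 := by exact_mod_cast h64.le
    have h4 : (0 : ℝ) < S.card := by exact_mod_cast hSpos
    nlinarith
  · set m := n / 64 with hm
    have hm1 : 1 ≤ m := by omega
    have hm2 : 64 * m ≤ n := by omega
    set C := S.filter fun p => (shiq L).dist [] p.1 ≤ m with hC
    set X := C.image Sigma.fst with hX
    set B := 4 ^ m * 2 ^ (7 * (n + m) / 4) with hB
    have hXr : ∀ x ∈ X, (shiq L).Reachable [] x ∧ (shiq L).dist [] x ≤ m := by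
      intro x hx
      obtain ⟨p, hp, rfl⟩ := Finset.mem_image.1 hx
      exact ⟨p.2.reachable, (Finset.mem_filter.1 hp).2⟩
    have h1 : C.card ≤ B * X.card := by
      refine Finset.card_le_mul_card_image C B fun x hx => ?_
      obtain ⟨hr, hd⟩ := hXr x hx
      have h := Main_fiber hUp L hL n m C (fun p hp => (hSmem p).1 (Finset.mem_filter.1 hp).1) x hr hd
      exact h
    have h2 := hLow L hL m n hm1 (by omega) X hXr
    have h3 := hNum m n hm1 hm2
    have hncard : (saws (shiq L) [] n).ncard = S.card := Set.ncard_eq_toFinset_card _ hfin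
    rw [hncard] at h2
    have h4 : 2 * C.card ≤ S.card := by
      have h5 : (m + 1) * (2 * C.card) ≤ (m + 1) * S.card := by
        calc (m + 1) * (2 * C.card) ≤ (m + 1) * (2 * (B * X.card)) := by gcongr
          _ = X.card * (2 * (m + 1) * 4 ^ m * 2 ^ (7 * (n + m) / 4)) := by rw [hB]; ring
          _ ≤ X.card * (3 ^ m * 4 ^ (n - 2 * m)) := Nat.mul_le_mul_left _ h3
          _ ≤ (m + 1) * S.card := h2
      exact Nat.le_of_mul_le_mul_left h5 (by omega)
    have h5 : ((m : ℝ) + 1) * ((S.card : ℝ) - C.card) ≤ ∑ p ∈ S, ((shiq L).dist [] p.1 : ℝ) := by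
      have h6 : ∑ p ∈ S.filter (fun p => ¬ (shiq L).dist [] p.1 ≤ m), ((m : ℝ) + 1)
          ≤ ∑ p ∈ S.filter (fun p => ¬ (shiq L).dist [] p.1 ≤ m), ((shiq L).dist [] p.1 : ℝ) := by
        refine Finset.sum_le_sum fun p hp => ?_
        have := (Finset.mem_filter.1 hp).2
        have h7 : m + 1 ≤ (shiq L).dist [] p.1 := by omega
        exact_mod_cast h7
      rw [Finset.sum_const, nsmul_eq_mul] at h6
      have h7 : ∑ p ∈ S.filter (fun p => ¬ (shiq L).dist [] p.1 ≤ m), ((shiq L).dist [] p.1 : ℝ)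
          ≤ ∑ p ∈ S, ((shiq L).dist [] p.1 : ℝ) :=
        Finset.sum_le_sum_of_subset_of_nonneg (Finset.filter_subset _ _) fun _ _ _ => by positivity
      have h8 : (C.card : ℝ) + (S.filter (fun p => ¬ (shiq L).dist [] p.1 ≤ m)).card = S.card := by
        have := Finset.card_filter_add_card_filter_not (s := S)
          (fun p => (shiq L).dist [] p.1 ≤ m)
        exact_mod_cast this
      have h9 : (S.card : ℝ) - C.card
          = (S.filter (fun p => ¬ (shiq L).dist [] p.1 ≤ m)).card := by linarith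
      rw [h9, mul_comm]
      exact h6.trans h7
    refine le_trans ?_ h5
    have h10 : (2 : ℝ) * C.card ≤ S.card := by exact_mod_cast h4
    have h11 : (n : ℝ) ≤ 64 * ((m : ℝ) + 1) := by
      have : n ≤ 64 * (m + 1) := by omega
      exact_mod_cast this
    have h12 : (0 : ℝ) < S.card := by exact_mod_cast hSpos
    have h13 : (0 : ℝ) ≤ m := by positivity
    have h14 : (S.card : ℝ) / 2 ≤ (S.card : ℝ) - C.card := by linarith
    calc (1 / 128 : ℝ) * n * S.card ≤ (1 / 128 : ℝ) * (64 * ((m : ℝ) + 1)) * S.card := by gcongr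
      _ = ((m : ℝ) + 1) * ((S.card : ℝ) / 2) := by ring
      _ ≤ ((m : ℝ) + 1) * ((S.card : ℝ) - C.card) := by gcongr

end Pool.SHQ
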