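import Pool.Agent.SHQ.Basic
import Pool.Agent.SHQ.Stmts

/-!
# Self-avoiding walk on the SHIQ: a part of a path is not a boundary (K13)
-/

namespace Pool.SHQ

open MeasureTheory Corner

theorem NoBd_mem_arcs {L : V → ℤ} {a : Sym2 V → Corner} {u v : V} (p : (shiq L).Walk u v)
    (c : Corner) : c ∈ arcs L a p ↔ ∃ e ∈ p.edges, a e = c := by
  unfold arcs
  rw [List.mem_toFinset, List.mem_map]

theorem NoBd_ends {L : V → ℤ} {a : Sym2 V → Corner} (ha : ArcOf L a) {u v : V}
    (p : (shiq L).Walk u v) {e : Sym2 V} (he : e ∈ p.edges) :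
    s(vtx (a e), vtx (sc L (a e))) = e := by
  have h1 : e ∈ (shiq L).edgeSet := p.edges_subset_edgeSet he
  induction e using Sym2.ind with
  | _ x y => exact ha x y h1

theorem NoBd_one {L : V → ℤ} {a : Sym2 V → Corner} (ha : ArcOf L a) {u v : V}
    (p : (shiq L).Walk u v) (hp : p.IsPath) (Y : Finset Corner) (hY : Y.Nonempty)
    (hsub : Y ⊆ arcs L a p) :
    ∃ w : V, (Y.filter (fun c => vtx c = w ∨ vtx (sc L c) = w)).card = 1 := by
  induction p with
  | nil =>
    obtain ⟨c, hc⟩ := hY
    have h := (NoBd_mem_arcs _ c).1 (hsub hc)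
    simp at h
  | @cons u u' v h p ih =>
    rw [SimpleGraph.Walk.cons_isPath_iff] at hp
    by_cases h1 : a s(u, u') ∈ Y
    · refine ⟨u, ?_⟩
      rw [Finset.card_eq_one]
      refine ⟨a s(u, u'), ?_⟩
      ext c
      rw [Finset.mem_filter, Finset.mem_singleton]
      constructor
      · rintro ⟨h2, h3⟩
        obtain ⟨e, he, h4⟩ := (NoBd_mem_arcs _ c).1 (hsub h2)
        rw [SimpleGraph.Walk.edges_cons, List.mem_cons] at he
        rcases he with he | he
        · rw [← h4, he]
        · exfalso
          have h5 := NoBd_ends ha p he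
          rw [h4] at h5
          have h6 : u ∈ e := by
            rw [← h5, Sym2.mem_iff]
            rcases h3 with h3 | h3
            · exact Or.inl h3.symm
            · exact Or.inr h3.symm
          exact hp.2 (p.mem_support_of_mem_edges he h6)
      · intro h2
        subst h2
        refine ⟨h1, ?_⟩
        have h5 : s(vtx (a s(u, u')), vtx (sc L (a s(u, u')))) = s(u, u') := ha u u' h
        have h6 : u ∈ s(vtx (a s(u, u')), vtx (sc L (a s(u, u')))) := by
          rw [h5]
          exact Sym2.mem_mk_left u u'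
        rw [Sym2.mem_iff] at h6
        rcases h6 with h6 | h6
        · exact Or.inl h6.symm
        · exact Or.inr h6.symm
    · refine ih hp.1 ?_
      intro c hc
      obtain ⟨e, he, h4⟩ := (NoBd_mem_arcs _ c).1 (hsub hc)
      rw [SimpleGraph.Walk.edges_cons, List.mem_cons] at he
      rcases he with he | he
      · exfalso
        rw [he] at h4
        rw [← h4] at hc
        exact h1 hc
      · exact (NoBd_mem_arcs _ c).2 ⟨e, he, h4⟩

theorem stmtNoBd_of : StmtEven → StmtBal → StmtFace → StmtNoBd := by
  intro h1 _ h3 L hL a ha u v p hp K Y hbd hsub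
  rcases Y.eq_empty_or_nonempty with hY | hY
  · have h := h3 L hL K Y hbd
    subst hY
    simp only [Finset.filter_empty, Finset.card_empty, mul_zero] at h
    exact Finset.card_eq_zero.1 (by omega)
  · exfalso
    obtain ⟨w, hw⟩ := NoBd_one ha p hp Y hY hsub
    have h := h1 L hL K Y hbd w
    rw [hw] at h
    exact absurd h (by decide)

end Pool.SHQ
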