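import Mathlib
import Pool.Agent.SHQ.Basic
import Pool.Agent.SHQ.Stmts

/-!
# Numbers (K18)
-/

namespace Pool.SHQ

open MeasureTheory Corner

theorem stmtNum : StmtNum := by
  intro m n hm hn
  obtain ⟨r, rfl⟩ := Nat.exists_eq_add_of_le hn
  have h1 : 7 * (64 * m + r + m) / 4 ≤ 114 * m + 2 * r := by omega
  have h2 : 64 * m + r - 2 * m = 62 * m + r := by omega
  rw [h2]
  have h3 : m + 1 ≤ 2 ^ m := Nat.lt_two_pow_self
  calc 2 * (m + 1) * 4 ^ m * 2 ^ (7 * (64 * m + r + m) / 4)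
      ≤ 2 ^ m * 2 ^ m * 4 ^ m * 2 ^ (114 * m + 2 * r) := by
        have h4 : 2 ≤ 2 ^ m := by
          calc 2 = 2 ^ 1 := by norm_num
            _ ≤ 2 ^ m := Nat.pow_le_pow_right (by norm_num) hm
        gcongr
        · norm_num
    _ = 1 ^ m * 4 ^ (59 * m + r) := by
        rw [show (4 : ℕ) = 2 ^ 2 by norm_num, ← pow_mul, ← pow_mul, ← pow_add, ← pow_add, ← pow_add,
          one_pow, one_mul]
        congr 1
        ring
    _ ≤ 3 ^ m * 4 ^ (62 * m + r) := by
        gcongr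
        · norm_num
        · norm_num
        · norm_num

end Pool.SHQ
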