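import Mathlib
import Pool.Agent.SHQ.Basic
import Pool.Agent.SHQ.Stmts

/-!
# K8: out-neighbours
-/

namespace Pool.SHQ

open MeasureTheory Corner

theorem out_iter_dn (v : V) (i : Fin 3) (k : ℕ) :
    nxt^[k + 1] (dn v i) = dn (List.replicate k 0 ++ (i :: v)) 0 := by
  induction k with
  | zero => rfl
  | succ k ih =>
    rw [Function.iterate_succ_apply', ih, List.replicate_succ, List.cons_append]
    rfl

theorem out_sub_dn (v : V) (i : Fin 3) (k : ℕ) (hk : 1 ≤ k) :
    (i :: v) <:+ vtx (nxt^[k] (dn v i)) := by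
  obtain ⟨l, rfl⟩ : ∃ l, k = l + 1 := ⟨k - 1, by omega⟩
  rw [out_iter_dn]
  exact List.suffix_append _ _

/-- two suffixes of the same length are equal -/
theorem out_suffix_eq {a b w : V} (ha : a <:+ w) (hb : b <:+ w) (h : a.length = b.length) :
    a = b := by
  rw [List.suffix_iff_eq_drop] at ha hb
  rw [ha, hb, h]

theorem out_not_self (u : V) (j : Fin 3) : ¬ (j :: u) <:+ u := by
  intro h
  have := h.length_le
  simp at this

theorem out_sub_up (u : V) : ∀ (j : Fin 3) (k : ℕ), 1 ≤ k →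
    ¬ (j :: u) <:+ vtx (nxt^[k] (up u j)) := by
  have hdn : ∀ (u : V) (j i : Fin 3) (k : ℕ), i ≠ j → ¬ (j :: u) <:+ vtx (nxt^[k] (dn u i)) := by
    intro u j i k hij h
    rcases Nat.eq_zero_or_pos k with rfl | hk
    · exact out_not_self u j h
    · have h1 := out_sub_dn u i k hk
      have h2 := out_suffix_eq h h1 (by simp)
      exact hij (List.cons.inj h2).1.symm
  induction u with
  | nil =>
    intro j k hk
    obtain ⟨l, rfl⟩ : ∃ l, k = l + 1 := ⟨k - 1, by omega⟩
    rw [Function.iterate_succ_apply]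
    match j with
    | 0 => exact hdn [] 0 1 l (by decide)
    | 1 => exact hdn [] 1 2 l (by decide)
    | 2 => exact hdn [] 2 0 l (by decide)
  | cons j' u' ih =>
    intro j k hk
    obtain ⟨l, rfl⟩ : ∃ l, k = l + 1 := ⟨k - 1, by omega⟩
    rw [Function.iterate_succ_apply]
    match j with
    | 0 => exact hdn (j' :: u') 0 1 l (by decide)
    | 1 => exact hdn (j' :: u') 1 2 l (by decide)
    | 2 =>
      change ¬ (2 :: j' :: u') <:+ vtx (nxt^[l] (up u' j'))
      rcases Nat.eq_zero_or_pos l with rfl | hl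
      · exact out_not_self (j' :: u') 2
      · intro h
        exact ih j' l hl ((List.suffix_cons _ _).trans h)

theorem out_sc_dn {L : V → ℤ} (hL : Good L) (v : V) (i : Fin 3) :
    (i :: v) <:+ vtx (sc L (dn v i)) := by
  obtain ⟨k, hk, h, _⟩ := sc_spec hL (dn v i)
  rw [h]
  exact out_sub_dn v i k hk

theorem out_sc_up {L : V → ℤ} (hL : Good L) (u : V) (j : Fin 3) :
    ¬ (j :: u) <:+ vtx (sc L (up u j)) := by
  obtain ⟨k, hk, h, _⟩ := sc_spec hL (up u j)
  rw [h]
  exact out_sub_up u j k hk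

theorem out_adj {L : V → ℤ} (hL : Good L) (c : Corner) :
    (shiq L).Adj (vtx c) (vtx (sc L c)) ∧ L (vtx (sc L c)) = L (vtx c) - 1 := by
  refine ⟨(adj_iff hL _ _).2 ⟨c, Or.inl ⟨rfl, rfl⟩⟩, ?_⟩
  obtain ⟨k, hk, h, h1, _⟩ := sc_spec hL c
  exact h1

theorem out_inj {L : V → ℤ} (hL : Good L) (v : V) :
    Function.Injective fun i : Fin 3 => vtx (sc L (dn v i)) := by
  intro i i' h
  have h1 := out_sc_dn hL v i
  have h2 := out_sc_dn hL v i'
  simp only at h
  rw [h] at h1
  have h3 := out_suffix_eq h1 h2 (by simp)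
  exact (List.cons.inj h3).1

theorem stmtOut : StmtOut := by
  intro L hL
  classical
  refine ⟨?_, ?_⟩
  · intro v hv
    obtain ⟨j, u, rfl⟩ : ∃ j u, v = j :: u := by
      rcases v with _ | ⟨j, u⟩
      · exact absurd rfl hv
      · exact ⟨j, u, rfl⟩
    refine ⟨insert (vtx (sc L (up u j)))
      (Finset.univ.image fun i : Fin 3 => vtx (sc L (dn (j :: u) i))), ?_, ?_⟩
    · rw [Finset.card_insert_of_notMem, Finset.card_image_of_injective _ (out_inj hL _)]
      · simp
      · intro h
        obtain ⟨i, _, hi⟩ := Finset.mem_image.1 h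
        have h1 := out_sc_dn hL (j :: u) i
        rw [hi] at h1
        exact out_sc_up hL u j ((List.suffix_cons _ _).trans h1)
    · intro y hy
      rcases Finset.mem_insert.1 hy with rfl | hy
      · exact out_adj hL (up u j)
      · obtain ⟨i, _, rfl⟩ := Finset.mem_image.1 hy
        exact out_adj hL (dn (j :: u) i)
  · refine ⟨Finset.univ.image fun i : Fin 3 => vtx (sc L (dn [] i)), ?_, ?_⟩
    · rw [Finset.card_image_of_injective _ (out_inj hL _)]
      simp
    · intro y hy
      obtain ⟨i, _, rfl⟩ := Finset.mem_image.1 hy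
      exact out_adj hL (dn [] i)

end Pool.SHQ
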