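import Mathlib
import Pool.Agent.SHQ.Basic
import Pool.Agent.SHQ.Stmts

/-!
# The arcs of a path: number and parity of the crossings of a cut (K10)
-/

namespace Pool.SHQ

open MeasureTheory Corner

variable {L : V → ℤ}

theorem par_arcof {a : Sym2 V → Corner} (ha : ArcOf L a) {e : Sym2 V}
    (he : e ∈ (shiq L).edgeSet) : s(vtx (a e), vtx (sc L (a e))) = e := by
  induction e using Sym2.ind with
  | _ x y => exact ha x y he

theorem par_nodup {a : Sym2 V → Corner} (ha : ArcOf L a) {u v : V} {p : (shiq L).Walk u v}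
    (hp : p.IsPath) : (p.edges.map a).Nodup := by
  refine List.Nodup.map_on ?_ hp.isTrail.edges_nodup
  intro e he e' he' h
  have h1 := par_arcof ha (p.edges_subset_edgeSet he)
  have h2 := par_arcof ha (p.edges_subset_edgeSet he')
  rw [h] at h1
  exact h1.symm.trans h2

/-- counting with propositions -/
theorem par_add {P Q P' : Prop} {D U D' U' : ℕ} (h1 : ¬ (P ↔ Q) ↔ ¬ (Odd D ↔ Odd U))
    (h2 : ¬ (Q ↔ P') ↔ ¬ (Odd D' ↔ Odd U')) : ¬ (P ↔ P') ↔ ¬ (Odd (D' + D) ↔ Odd (U' + U)) := by
  rw [Nat.odd_add', Nat.odd_add']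
  simp only [← Nat.not_odd_iff_even]
  tauto

open Classical in
theorem par_walk (hL : Good L) (hCut : StmtCut) {a : Sym2 V → Corner} (ha : ArcOf L a) (q : Ed)
    {u v : V} (p : (shiq L).Walk u v) : (¬ (Sub q u ↔ Sub q v)) ↔
      ¬ (Odd ((p.edges.map a).countP (fun c => decide (Cov L c (dn q.1 q.2)))) ↔
        Odd ((p.edges.map a).countP (fun c => decide (Cov L c (up q.1 q.2))))) := by
  induction p with
  | nil => simp
  | @cons x y z h p ih =>
    rw [SimpleGraph.Walk.edges_cons, List.map_cons, List.countP_cons, List.countP_cons]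
    refine par_add ?_ ih
    have h1 := hCut L hL q (a s(x, y))
    have h2 : (¬ (Sub q x ↔ Sub q y)) ↔
        ¬ (Sub q (vtx (a s(x, y))) ↔ Sub q (vtx (sc L (a s(x, y))))) := by
      rcases Sym2.eq_iff.mp (ha x y h) with h3 | h3
      · rw [h3.1, h3.2]
      · rw [h3.1, h3.2]
        exact not_congr Iff.comm
    rw [h2, h1]
    by_cases h3 : Cov L (a s(x, y)) (dn q.1 q.2) <;>
      by_cases h4 : Cov L (a s(x, y)) (up q.1 q.2) <;> simp [h3, h4]

theorem stmtPar_of (hCut : StmtCut) : StmtPar := by
  classical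
  intro L hL a ha u v p hp
  have hnd := par_nodup ha hp
  have hcount : ∀ P : Corner → Prop, ((arcs L a p).filter P).card =
      (p.edges.map a).countP (fun c => decide (P c)) := by
    intro P
    rw [List.countP_eq_length_filter, ← List.toFinset_card_of_nodup (hnd.filter _),
      List.toFinset_filter]
    unfold arcs
    congr 1
    ext c
    simp
  constructor
  · unfold arcs
    have h1 := List.toFinset_card_of_nodup hnd
    rw [List.length_map, SimpleGraph.Walk.length_edges] at h1
    convert h1
  · intro q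
    rw [par_walk hL hCut ha q p]
    have h1 := hcount (fun c => Cov L c (dn q.1 q.2))
    have h2 := hcount (fun c => Cov L c (up q.1 q.2))
    rw [← h1, ← h2]

end Pool.SHQ
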