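import Mathlib
import Pool.Agent.SHQ.Basic
import Pool.Agent.SHQ.Stmts

/-!
# The corners with a given last earlier corner of smaller or equal label (K4)
-/

namespace Pool.SHQ

open MeasureTheory Corner

variable {L : V → ℤ}

/-- `ob c = s` in terms of `s` -/
theorem pre_iff (hL : Good L) (c s : Corner) : ob L c = s ↔
    ∃ k : ℕ, 1 ≤ k ∧ c = nxt^[k] s ∧ lv L s ≤ lv L c ∧
      ∀ j : ℕ, 1 ≤ j → j < k → lv L c < lv L (nxt^[j] s) := by
  constructor
  · rintro rfl
    obtain ⟨k, hk1, hk2, hk3, hk4⟩ := ob_spec hL c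
    refine ⟨k, hk1, eq_nxt_iter_iff.mpr hk2, hk3, fun j hj1 hj2 => ?_⟩
    have h1 : nxt^[j] (ob L c) = prv^[k - j] c := by
      rw [hk2]
      have h2 : prv^[k] c = prv^[j] (prv^[k - j] c) := by
        rw [← Function.iterate_add_apply]; congr 1; omega
      rw [h2, nxt_iter_prv]
    rw [h1]
    exact hk4 _ (by omega) (by omega)
  · rintro ⟨k, hk1, hk2, hk3, hk4⟩
    have hs : s = prv^[k] c := eq_nxt_iter_iff.mp hk2
    rw [hs]
    refine ob_eq hL hk1 (by rw [← hs]; exact hk3) fun j hj1 hj2 => ?_
    have h1 : prv^[j] c = nxt^[k - j] s := by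
      rw [hk2]
      have h2 : nxt^[k] s = nxt^[j] (nxt^[k - j] s) := by
        rw [← Function.iterate_add_apply]; congr 1; omega
      rw [h2, prv_iter_nxt]
    rw [h1]
    exact hk4 _ (by omega) (by omega)

theorem stmtPre : StmtPre := by
  intro L hL s
  have hst := lv_step hL s
  rw [abs_le] at hst
  have hcase : lv L (nxt s) = lv L s - 1 ∨ lv L (nxt s) = lv L s ∨ lv L (nxt s) = lv L s + 1 := by
    omega
  have hone : nxt^[1] s = nxt s := rfl
  -- general form of the corners with `ob c = s`
  have hgen : ∀ c, ob L c = s → (c = nxt s ∧ lv L s ≤ lv L c) ∨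
      (c = sc L (nxt s) ∧ lv L (nxt s) = lv L s + 1) := by
    intro c hc
    obtain ⟨k, hk1, hk2, hk3, hk4⟩ := (pre_iff hL c s).mp hc
    rcases Nat.lt_or_ge 1 k with hk | hk
    · right
      have h1 := hk4 1 le_rfl hk
      rw [hone] at h1
      have h2 : lv L (nxt s) = lv L s + 1 := by omega
      refine ⟨?_, h2⟩
      have h3 : c = nxt^[k - 1] (nxt s) := by
        rw [hk2, ← Function.iterate_succ_apply]
        congr 1
        omega
      rw [h3]
      symm
      apply sc_eq hL
      · rw [← h3]; exact h1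
      · intro j hj
        rcases Nat.eq_zero_or_pos j with rfl | hj0
        · exact le_rfl
        · have h4 := hk4 (j + 1) (by omega) (by omega)
          rw [Function.iterate_succ_apply] at h4
          omega
    · left
      have : k = 1 := by omega
      subst this
      exact ⟨hk2, hk3⟩
  have hfst : lv L s ≤ lv L (nxt s) → ob L (nxt s) = s := by
    intro h
    exact (pre_iff hL _ _).mpr ⟨1, le_rfl, rfl, h, fun j h1 h2 => by omega⟩
  have hsnd : lv L (nxt s) = lv L s + 1 → ob L (sc L (nxt s)) = s := by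
    intro h
    obtain ⟨l, hl1, hl2, hl3, hl4⟩ := sc_spec hL (nxt s)
    refine (pre_iff hL _ _).mpr ⟨l + 1, by omega, ?_, by omega, fun j h1 h2 => ?_⟩
    · rw [hl2, Function.iterate_succ_apply]
    · have h3 := hl4 (j - 1) (by omega)
      rw [← Function.iterate_succ_apply] at h3
      have h4 : (j - 1).succ = j := by omega
      rw [h4] at h3
      omega
  rcases hcase with h | h | h
  · refine ⟨∅, fun c => ⟨fun hc => absurd hc (Finset.notMem_empty c), fun hc => ?_⟩, ?_⟩
    · exfalso
      rcases hgen c hc with ⟨h1, h2⟩ | ⟨h1, h2⟩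
      · rw [h1] at h2; omega
      · omega
    · rw [Finset.card_empty]; push_cast; omega
  · refine ⟨{nxt s}, fun c => ?_, ?_⟩
    · rw [Finset.mem_singleton]
      constructor
      · rintro rfl; exact hfst h.ge
      · intro hc
        rcases hgen c hc with ⟨h1, h2⟩ | ⟨h1, h2⟩
        · exact h1
        · omega
    · rw [Finset.card_singleton]; push_cast; omega
  · have hne : nxt s ≠ sc L (nxt s) := by
      intro hcon
      obtain ⟨l, hl1, hl2, hl3, hl4⟩ := sc_spec hL (nxt s)
      rw [← hcon] at hl3
      omega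
    refine ⟨{nxt s, sc L (nxt s)}, fun c => ?_, ?_⟩
    · rw [Finset.mem_insert, Finset.mem_singleton]
      constructor
      · rintro (rfl | rfl)
        · exact hfst (by omega)
        · exact hsnd h
      · intro hc
        rcases hgen c hc with ⟨h1, h2⟩ | ⟨h1, h2⟩
        · exact Or.inl h1
        · exact Or.inr h1
    · rw [Finset.card_pair hne]; push_cast; omega

end Pool.SHQ
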