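import Mathlib
import Pool.Agent.SHQ.Basic
import Pool.Agent.SHQ.Stmts

/-!
# K12: two paths with the same end points bound a finite region
-/

namespace Pool.SHQ

open Corner

open Classical in
theorem Region_parity (X X' : Finset Corner) (P : Corner → Prop) :
    Odd ((symmDiff X X').filter P).card ↔
      ¬ (Odd (X.filter P).card ↔ Odd (X'.filter P).card) := by
  have h1 : (symmDiff X X').filter P = symmDiff (X.filter P) (X'.filter P) := by
    ext c
    simp only [Finset.mem_filter, Finset.mem_symmDiff]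
    tauto
  rw [h1]
  set Y := X.filter P
  set Y' := X'.filter P
  have h2 : (symmDiff Y Y').card + 2 * (Y ∩ Y').card = Y.card + Y'.card := by
    have h3 : (symmDiff Y Y') = (Y \ Y') ∪ (Y' \ Y) := rfl
    have h4 : Disjoint (Y \ Y') (Y' \ Y) := by
      rw [Finset.disjoint_left]
      intro c hc hc'
      exact (Finset.mem_sdiff.1 hc).2 (Finset.mem_sdiff.1 hc').1
    rw [h3, Finset.card_union_of_disjoint h4]
    have h5 := Finset.card_sdiff_add_card_inter Y Y'
    have h6 := Finset.card_sdiff_add_card_inter Y' Y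
    rw [Finset.inter_comm Y' Y] at h6
    omega
  rw [Nat.odd_iff, Nat.odd_iff, Nat.odd_iff]
  omega

theorem Region_prop {P a b c d e f : Prop} (h1 : P ↔ ¬ (a ↔ b)) (h2 : P ↔ ¬ (c ↔ d))
    (h3 : e ↔ ¬ (a ↔ c)) (h4 : f ↔ ¬ (b ↔ d)) : e ↔ f := by
  rw [h3, h4]
  by_cases ha : a <;> by_cases hb : b <;> by_cases hc : c <;> by_cases hd : d <;> simp_all

theorem stmtRegion_of : StmtCov → StmtCovFin → StmtPar → StmtRegion := by
  intro hCov hFin hPar L hL a ha u v p p' hp hp'
  classical
  set Z : Finset Corner := symmDiff (arcs L a p) (arcs L a p') with hZ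
  set N : Corner → ℕ := fun s => (Z.filter (fun c => Cov L c s)).card with hN
  have hpar : ∀ q : Ed, (Odd (N (dn q.1 q.2)) ↔ Odd (N (up q.1 q.2))) := by
    intro q
    have h1 := (hPar L hL a ha u v p hp).2 q
    have h2 := (hPar L hL a ha u v p' hp').2 q
    have h3 := Region_parity (arcs L a p) (arcs L a p') (fun c => Cov L c (dn q.1 q.2))
    have h4 := Region_parity (arcs L a p) (arcs L a p') (fun c => Cov L c (up q.1 q.2))
    exact Region_prop h1 h2 h3 h4
  have hfin : {q : Ed | Odd (N (dn q.1 q.2))}.Finite := by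
    have hbig : (⋃ c ∈ Z, edge '' {s | Cov L c s}).Finite :=
      Set.Finite.biUnion Z.finite_toSet fun c _ => (hFin L hL c).image _
    refine hbig.subset ?_
    intro q hq
    have hq' : Odd (N (dn q.1 q.2)) := hq
    have hpos : 0 < N (dn q.1 q.2) := hq'.pos
    obtain ⟨c, hc⟩ := Finset.card_pos.1 hpos
    obtain ⟨hc1, hc2⟩ := Finset.mem_filter.1 hc
    simp only [Set.mem_iUnion]
    exact ⟨c, hc1, dn q.1 q.2, hc2, rfl⟩
  refine ⟨hfin.toFinset, ?_⟩
  have hmem : ∀ s : Corner, edge s ∈ hfin.toFinset ↔ Odd (N s) := by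
    intro s
    rw [Set.Finite.mem_toFinset]
    show Odd (N (dn (edge s).1 (edge s).2)) ↔ Odd (N s)
    rcases (edge_eq_iff (edge s) s).1 rfl with h | h
    · rw [← h]
    · rw [hpar, ← h]
  intro c
  rw [hmem, hmem]
  have hstep : N c = N (ob L c) + (if c ∈ Z then 1 else 0) := by
    simp only [hN]
    have hun : Z.filter (fun d => Cov L d c)
        = Z.filter (fun d => Cov L d (ob L c)) ∪ Z.filter (fun d => d = c) := by
      ext d
      simp only [Finset.mem_filter, Finset.mem_union]
      rw [(hCov L hL d c).1]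
      tauto
    have hdis : Disjoint (Z.filter (fun d => Cov L d (ob L c))) (Z.filter (fun d => d = c)) := by
      rw [Finset.disjoint_left]
      intro d hd hd'
      have h1 := (Finset.mem_filter.1 hd').2
      subst h1
      exact (hCov L hL d d).2 (Finset.mem_filter.1 hd).2
    rw [hun, Finset.card_union_of_disjoint hdis]
    congr 1
    rw [Finset.filter_eq']
    split_ifs <;> simp
  rw [hstep]
  split_ifs with h
  · simp only [h, true_iff]
    rw [Nat.odd_iff, Nat.odd_iff]
    omega
  · simp only [h, false_iff, not_not, add_zero]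

end Pool.SHQ
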