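import Mathlib
import Pool.Agent.SHQ.Basic
import Pool.Agent.SHQ.Stmts

/-!
# Upper bound for the number of self-avoiding walks with given end points (K15)
-/

namespace Pool.SHQ

open MeasureTheory Corner

theorem up_isBd_unique {L : V → ℤ} {A : Finset Ed} {Y Y' : Finset Corner} (h : IsBd L A Y)
    (h' : IsBd L A Y') : Y = Y' := by
  ext c
  rw [h c, h' c]

open Classical in
/-- the outer neighbours of a set of edges -/
noncomputable def upN (L : V → ℤ) (A : Finset Ed) : Finset Ed :=
  if h : ∃ Y : Finset Corner, IsBd L A Y then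
    h.choose.image (fun c => if edge c ∈ A then edge (ob L c) else edge c)
  else ∅

open Classical in
theorem upN_eq {L : V → ℤ} {A : Finset Ed} {Y : Finset Corner} (h : IsBd L A Y) :
    upN L A = Y.image (fun c => if edge c ∈ A then edge (ob L c) else edge c) := by
  have hex : ∃ Y : Finset Corner, IsBd L A Y := ⟨Y, h⟩
  rw [upN, dif_pos hex, up_isBd_unique hex.choose_spec h]

theorem upN_disjoint {L : V → ℤ} {A : Finset Ed} {Y : Finset Corner} (h : IsBd L A Y) :
    Disjoint A (upN L A) := by
  classical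
  rw [upN_eq h, Finset.disjoint_left]
  intro e he hc
  rw [Finset.mem_image] at hc
  obtain ⟨c, hc, hce⟩ := hc
  have h1 := (h c).mp hc
  split_ifs at hce with h2
  · rw [← hce] at he; exact h1 ⟨fun _ => he, fun _ => h2⟩
  · rw [← hce] at he; exact h2 he

theorem upN_card {L : V → ℤ} {A : Finset Ed} {Y : Finset Corner} (h : IsBd L A Y) :
    (upN L A).card ≤ Y.card := by
  classical
  rw [upN_eq h]
  exact Finset.card_image_le

/-- a neighbour outside of `A` of an edge of `A` -/
theorem upN_mem {L : V → ℤ} {A : Finset Ed} {Y : Finset Corner} (h : IsBd L A Y) (c : Corner) :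
    (edge c ∈ A → edge (ob L c) ∉ A → edge (ob L c) ∈ upN L A) ∧
      (edge c ∉ A → edge (ob L c) ∈ A → edge c ∈ upN L A) := by
  classical
  rw [upN_eq h]
  constructor
  · intro h1 h2
    rw [Finset.mem_image]
    refine ⟨c, (h c).mpr fun h3 => h2 (h3.mp h1), ?_⟩
    rw [if_pos h1]
  · intro h1 h2
    rw [Finset.mem_image]
    refine ⟨c, (h c).mpr fun h3 => h1 (h3.mpr h2), ?_⟩
    rw [if_neg h1]

/-- the key step: two regions in the same cylinder -/
theorem up_key {L : V → ℤ} (hL : Good L) (hNB : StmtNoBd) {a : Sym2 V → Corner} (ha : ArcOf L a)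
    {x : V} {w π : (shiq L).Walk [] x} (hw : w.IsPath) {A A' S : Finset Ed} {Y Y' : Finset Corner}
    (hA : IsBd L A Y) (hA' : IsBd L A' Y')
    (hY : Y ⊆ arcs L a w ∪ arcs L a π)
    (hS : ∀ c ∈ arcs L a π, edge c ∈ S ∧ edge (ob L c) ∈ S)
    (hAS : ∀ e ∈ S, e ∈ A ↔ e ∈ A')
    (ho : ∃ o : Finset Ed, A ⊆ o ∧ Disjoint (upN L A') o) : A ⊆ A' := by
  classical
  obtain ⟨o, ho1, ho2⟩ := ho
  have hK : A \ A' = ∅ := by
    refine hNB L hL a ha [] x w hw (A \ A')
      (Y.filter (fun c => ¬ (edge c ∈ A \ A' ↔ edge (ob L c) ∈ A \ A'))) ?_ ?_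
    · intro c
      rw [Finset.mem_filter]
      refine ⟨fun h => h.2, fun h => ⟨?_, h⟩⟩
      rw [hA c]
      intro hcon
      have hN := upN_mem hA' c
      by_cases h1 : edge c ∈ A \ A'
      · have h2 : edge (ob L c) ∉ A \ A' := fun h2 => h ⟨fun _ => h2, fun _ => h1⟩
        rw [Finset.mem_sdiff] at h1 h2
        have h3 : edge (ob L c) ∈ A := hcon.mp h1.1
        have h4 : edge (ob L c) ∈ A' := by
          by_contra h4; exact h2 ⟨h3, h4⟩
        exact Finset.disjoint_left.mp ho2 (hN.2 h1.2 h4) (ho1 h1.1)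
      · have h2 : edge (ob L c) ∈ A \ A' := by
          by_contra h2; exact h ⟨fun h3 => absurd h3 h1, fun h3 => absurd h3 h2⟩
        rw [Finset.mem_sdiff] at h1 h2
        have h3 : edge c ∈ A := hcon.mpr h2.1
        have h4 : edge c ∈ A' := by
          by_contra h4; exact h1 ⟨h3, h4⟩
        exact Finset.disjoint_left.mp ho2 (hN.1 h4 h2.2) (ho1 h2.1)
    · intro c hc
      rw [Finset.mem_filter] at hc
      rcases Finset.mem_union.mp (hY hc.1) with h | h
      · exact h
      · exfalso
        apply hc.2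
        obtain ⟨h1, h2⟩ := hS c h
        rw [Finset.mem_sdiff, Finset.mem_sdiff]
        have h3 := hAS _ h1
        have h4 := hAS _ h2
        constructor
        · rintro ⟨h5, h6⟩; exact absurd (h3.mp h5) h6
        · rintro ⟨h5, h6⟩; exact absurd (h4.mp h5) h6
  exact Finset.sdiff_eq_empty_iff_subset.mp hK

theorem stmtUp_of (hArc : StmtArc) (hPar : StmtPar) (hDet : StmtDet) (hReg : StmtRegion)
    (hNB : StmtNoBd) (hCnt : StmtCnt) (hBal : StmtBal) (hFace : StmtFace) : StmtUp := by
  classical
  intro L hL x m n π hπ hm W hW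
  obtain ⟨a, ha⟩ := hArc L hL
  have hreg : ∀ w : (shiq L).Walk [] x, ∃ A : Finset Ed, w.IsPath →
      IsBd L A (symmDiff (arcs L a w) (arcs L a π)) := by
    intro w
    by_cases hw : w.IsPath
    · obtain ⟨A, hA⟩ := hReg L hL a ha [] x w π hw hπ
      exact ⟨A, fun _ => hA⟩
    · exact ⟨∅, fun h => absurd h hw⟩
  choose R hR using hreg
  have hcπ : (arcs L a π).card = m := by rw [(hPar L hL a ha [] x π hπ).1, hm]
  set S : Finset Ed := (arcs L a π).image edge ∪ (arcs L a π).image (fun c => edge (ob L c))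
    with hSdef
  have hScard : S.card ≤ 2 * m := by
    calc S.card ≤ ((arcs L a π).image edge).card +
          ((arcs L a π).image (fun c => edge (ob L c))).card := Finset.card_union_le _ _
      _ ≤ m + m := by
          refine add_le_add ?_ ?_
          · exact Finset.card_image_le.trans hcπ.le
          · exact Finset.card_image_le.trans hcπ.le
      _ = 2 * m := by ring
  have hS : ∀ c ∈ arcs L a π, edge c ∈ S ∧ edge (ob L c) ∈ S := by
    intro c hc
    constructor
    · exact Finset.mem_union_left _ (Finset.mem_image_of_mem _ hc)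
    · exact Finset.mem_union_right _ (Finset.mem_image_of_mem (fun c => edge (ob L c)) hc)
  -- injectivity
  have hinj : ∀ w ∈ W, ∀ w' ∈ W, R w = R w' → w = w' := by
    intro w hw w' hw' h
    have h1 := hR w (hW w hw).1
    have h2 := hR w' (hW w' hw').1
    rw [h] at h1
    have h3 := up_isBd_unique h1 h2
    have h4 : arcs L a w = arcs L a w' := symmDiff_left_injective (arcs L a π) h3
    exact hDet L hL a ha [] x w w' (hW w hw).1 (hW w' hw').1 h4
  -- sizes
  have hsize : ∀ w ∈ W, (R w).card + (upN L (R w)).card ≤ 7 * (n + m) / 4 := by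
    intro w hw
    have h1 := hR w (hW w hw).1
    have h2 := hBal L hL (R w) _ h1
    have h3 := hFace L hL (R w) _ h1
    have h4 := upN_card h1
    have h5 : (symmDiff (arcs L a w) (arcs L a π)).card ≤ n + m := by
      have h6 : symmDiff (arcs L a w) (arcs L a π) ⊆ arcs L a w ∪ arcs L a π := by
        intro c hc
        rw [Finset.mem_symmDiff] at hc
        rcases hc with hc | hc
        · exact Finset.mem_union_left _ hc.1
        · exact Finset.mem_union_right _ hc.1
      calc _ ≤ (arcs L a w ∪ arcs L a π).card := Finset.card_le_card h6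
        _ ≤ (arcs L a w).card + (arcs L a π).card := Finset.card_union_le _ _
        _ = n + m := by
            rw [hcπ, (hPar L hL a ha [] x w (hW w hw).1).1, (hW w hw).2]
    omega
  -- fibres over the trace on S
  have hfib : ∀ X ∈ S.powerset, (W.filter (fun w => R w ∩ S = X)).card ≤
      2 ^ (7 * (n + m) / 4) := by
    intro X hX
    have h1 : ((W.filter (fun w => R w ∩ S = X)).image R).card =
        (W.filter (fun w => R w ∩ S = X)).card := by
      apply Finset.card_image_of_injOn
      intro w hw w' hw' h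
      have hw := (Finset.mem_filter.mp (Finset.mem_coe.mp hw)).1
      have hw' := (Finset.mem_filter.mp (Finset.mem_coe.mp hw')).1
      exact hinj w hw w' hw' h
    rw [← h1]
    refine hCnt _ (upN L) _ ?_ ?_ ?_
    · intro A hA
      obtain ⟨w, hw, rfl⟩ := Finset.mem_image.mp hA
      rw [Finset.mem_filter] at hw
      exact upN_disjoint (hR w (hW w hw.1).1)
    · intro A hA
      obtain ⟨w, hw, rfl⟩ := Finset.mem_image.mp hA
      rw [Finset.mem_filter] at hw
      exact hsize w hw.1
    · intro A hA A' hA' hne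
      obtain ⟨w, hw, rfl⟩ := Finset.mem_image.mp hA
      obtain ⟨w', hw', rfl⟩ := Finset.mem_image.mp hA'
      rw [Finset.mem_filter] at hw hw'
      rintro ⟨o, ho1, ho2, ho3, ho4⟩
      apply hne
      have hb := hR w (hW w hw.1).1
      have hb' := hR w' (hW w' hw'.1).1
      have hsub : ∀ w : (shiq L).Walk [] x,
          symmDiff (arcs L a w) (arcs L a π) ⊆ arcs L a w ∪ arcs L a π := by
        intro w c hc
        rw [Finset.mem_symmDiff] at hc
        rcases hc with hc | hc
        · exact Finset.mem_union_left _ hc.1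
        · exact Finset.mem_union_right _ hc.1
      have htr : ∀ e ∈ S, e ∈ R w ↔ e ∈ R w' := by
        intro e he
        have h2 : R w ∩ S = R w' ∩ S := by rw [hw.2, hw'.2]
        constructor
        · intro h3
          have : e ∈ R w' ∩ S := h2 ▸ Finset.mem_inter.mpr ⟨h3, he⟩
          exact (Finset.mem_inter.mp this).1
        · intro h3
          have : e ∈ R w ∩ S := h2 ▸ Finset.mem_inter.mpr ⟨h3, he⟩
          exact (Finset.mem_inter.mp this).1
      exact Finset.Subset.antisymm
        (up_key hL hNB ha (hW w hw.1).1 hb hb' (hsub w) hS htr ⟨o, ho1, ho4⟩)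
        (up_key hL hNB ha (hW w' hw'.1).1 hb' hb (hsub w') hS (fun e he => (htr e he).symm)
          ⟨o, ho3, ho2⟩)
  have hmap : ∀ w ∈ W, R w ∩ S ∈ S.powerset := fun w _ =>
    Finset.mem_powerset.mpr Finset.inter_subset_right
  calc W.card = ∑ X ∈ S.powerset, (W.filter (fun w => R w ∩ S = X)).card :=
        Finset.card_eq_sum_card_fiberwise hmap
    _ ≤ ∑ X ∈ S.powerset, 2 ^ (7 * (n + m) / 4) := Finset.sum_le_sum hfib
    _ = 2 ^ S.card * 2 ^ (7 * (n + m) / 4) := by
        rw [Finset.sum_const, Finset.card_powerset, smul_eq_mul]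
    _ ≤ 2 ^ (2 * m) * 2 ^ (7 * (n + m) / 4) := by
        gcongr
        norm_num
    _ = 4 ^ m * 2 ^ (7 * (n + m) / 4) := by
        rw [pow_mul]; norm_num

end Pool.SHQ
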