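import Mathlib
import Pool.Agent.SHQ.Basic
import Pool.Agent.SHQ.Stmts
import Pool.Agent.SHQ.Cov
import Pool.Agent.SHQ.CovFin
import Pool.Agent.SHQ.Cut
import Pool.Agent.SHQ.Pre
import Pool.Agent.SHQ.Bal
import Pool.Agent.SHQ.Face
import Pool.Agent.SHQ.Even
import Pool.Agent.SHQ.Out
import Pool.Agent.SHQ.Arc
import Pool.Agent.SHQ.Par
import Pool.Agent.SHQ.Det
import Pool.Agent.SHQ.Region
import Pool.Agent.SHQ.NoBd
import Pool.Agent.SHQ.Cnt
import Pool.Agent.SHQ.Up
import Pool.Agent.SHQ.Fin
import Pool.Agent.SHQ.Low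
import Pool.Agent.SHQ.Num
import Pool.Agent.SHQ.Main
import Pool.Agent.SHQ.Ae

/-!
# Self-avoiding walk on the SHIQ is ballistic: assembly of the modules
-/

namespace Pool.SHQ

open MeasureTheory

theorem final_par : StmtPar := stmtPar_of stmtCut

theorem final_bal : StmtBal := stmtBal_of stmtPre

theorem final_region : StmtRegion := stmtRegion_of stmtCov stmtCovFin final_par

theorem final_even : StmtEven := stmtEven_of stmtCov stmtCut

theorem final_noBd : StmtNoBd := stmtNoBd_of final_even final_bal stmtFace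

theorem final_up : StmtUp :=
  stmtUp_of stmtArc final_par stmtDet final_region final_noBd stmtCnt final_bal stmtFace

theorem final_low : StmtLow := stmtLow_of stmtOut stmtFin

theorem final_main : StmtMain := stmtMain_of stmtOut final_up stmtFin final_low stmtNum

theorem final : ∀ᵐ ω ∂P, ∀ n : ℕ, 1 ≤ n →
    (saws (shiq (lab ω)) [] n).Finite ∧ (saws (shiq (lab ω)) [] n).Nonempty ∧
      (1 / 128 : ℝ) * n ≤ meanDist (shiq (lab ω)) [] n := by
  filter_upwards [stmtAe] with ω hω
  exact final_main (lab ω) hω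

end Pool.SHQ
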