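import Mathlib
import Pool.Agent.SHQ.Basic
import Pool.Agent.SHQ.Stmts

/-!
# Lower bound for the number of self-avoiding walks (K17)
-/

namespace Pool.SHQ

open MeasureTheory Corner

/-- labels along a walk -/
theorem low_lab {L : V → ℤ} {u v : V} (p : (shiq L).Walk u v) : L v ≤ L u + p.length := by
  induction p with
  | nil => simp
  | cons h p ih =>
    have := adj_lab h
    rw [SimpleGraph.Walk.length_cons]
    push_cast
    omega

theorem low_append_inj {G : SimpleGraph V} {u v w : V} (p : G.Walk u v) (q q' : G.Walk v w)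
    (h : p.append q = p.append q') : q = q' := by
  induction p with
  | nil => simpa using h
  | cons hadj p ih =>
    rw [SimpleGraph.Walk.cons_append, SimpleGraph.Walk.cons_append] at h
    apply ih
    injection h

/-- the new vertex is not on the path -/
theorem low_new {L : V → ℤ} {x : V} (π : (shiq L).Walk [] x)
    (hlen : π.length = (shiq L).dist [] x) {y y' : V} (q : (shiq L).Walk x y) {i : ℕ}
    (hq : q.length = i) (hly : L y = L x - i) (hqs : ∀ z ∈ q.support, L y ≤ L z)
    (h : (shiq L).Adj y y') (hy' : L y' = L y - 1)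
    (hne : i + 1 ≤ π.length → y' ≠ π.getVert (π.length - (i + 1))) :
    y' ∉ (π.append q).support := by
  classical
  rw [SimpleGraph.Walk.mem_support_append_iff]
  rintro (h1 | h1)
  · have h2 : (π.takeUntil y' h1).length + (π.dropUntil y' h1).length = π.length := by
      rw [← SimpleGraph.Walk.length_append, SimpleGraph.Walk.take_spec]
    have h3 := low_lab (π.dropUntil y' h1)
    have h4 : (shiq L).dist [] x ≤ (π.takeUntil y' h1).length + (i + 1) := by
      have := SimpleGraph.dist_le ((π.takeUntil y' h1).append (q.concat h).reverse)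
      rw [SimpleGraph.Walk.length_append, SimpleGraph.Walk.length_reverse,
        SimpleGraph.Walk.length_concat, hq] at this
      exact this
    have h5 : i + 1 ≤ (π.dropUntil y' h1).length := by
      have : (L x : ℤ) ≤ L x - i - 1 + (π.dropUntil y' h1).length := by
        rw [hy', hly] at h3
        exact h3
      omega
    have h6 : (π.takeUntil y' h1).length = π.length - (i + 1) := by omega
    apply hne (by omega)
    rw [← h6]
    exact (SimpleGraph.Walk.getVert_length_takeUntil h1).symm
  · have := hqs y' h1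
    omega

theorem low_ext (hOut : StmtOut) {L : V → ℤ} (hL : Good L) {x : V} (π : (shiq L).Walk [] x)
    (hπ : π.IsPath) (hlen : π.length = (shiq L).dist [] x) {J : ℕ} (hJ1 : 1 ≤ J)
    (hJ : π.length ≤ J) : ∀ i : ℕ, ∃ E : Finset (Σ y : V, (shiq L).Walk x y),
      3 ^ (min i J) * 4 ^ (i - J) ≤ E.card ∧ ∀ q ∈ E, q.2.length = i ∧ L q.1 = L x - i ∧
        (∀ z ∈ q.2.support, L q.1 ≤ L z) ∧ (π.append q.2).IsPath := by
  classical
  intro i
  induction i with
  | zero =>
    refine ⟨{⟨x, SimpleGraph.Walk.nil⟩}, by simp, ?_⟩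
    intro q hq
    rw [Finset.mem_singleton] at hq
    subst hq
    refine ⟨rfl, by simp, ?_, by simpa using hπ⟩
    intro z hz
    simp at hz
    rw [hz]
  | succ i ih =>
    obtain ⟨E, hE, hE2⟩ := ih
    -- the new vertices
    have key : ∀ q : (Σ y : V, (shiq L).Walk x y), ∃ S : Finset V, q ∈ E →
        (if i < J then 3 else 4) ≤ S.card ∧ ∀ y ∈ S, (shiq L).Adj q.1 y ∧ L y = L q.1 - 1 ∧
          (i + 1 ≤ π.length → y ≠ π.getVert (π.length - (i + 1))) := by
      intro q
      by_cases hq : q ∈ E
      swap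
      · exact ⟨∅, fun h => absurd h hq⟩
      obtain ⟨h1, h2, h3, h4⟩ := hE2 q hq
      by_cases h0 : q.1 = []
      · -- then `π` and `q` are trivial
        obtain ⟨S, hS, hS2⟩ := (hOut L hL).2
        obtain ⟨y, q⟩ := q
        dsimp only at h0 h1 h2 h3 h4
        subst h0
        have h5 : (π.append q).length = 0 := by
          have := SimpleGraph.Walk.isPath_iff_eq_nil.mp h4
          rw [this]; rfl
        rw [SimpleGraph.Walk.length_append] at h5
        refine ⟨S, fun _ => ⟨?_, ?_⟩⟩
        · rw [hS]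
          have : i < J := by omega
          rw [if_pos this]
        · intro y hy
          exact ⟨(hS2 y hy).1, (hS2 y hy).2, fun h => by omega⟩
      · obtain ⟨S, hS, hS2⟩ := (hOut L hL).1 q.1 h0
        by_cases h5 : i + 1 ≤ π.length
        · refine ⟨S.erase (π.getVert (π.length - (i + 1))), fun _ => ⟨?_, ?_⟩⟩
          · have h6 : i < J := by omega
            rw [if_pos h6]
            have := Finset.pred_card_le_card_erase (s := S)
              (a := π.getVert (π.length - (i + 1)))
            omega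
          · intro y hy
            rw [Finset.mem_erase] at hy
            exact ⟨(hS2 y hy.2).1, (hS2 y hy.2).2, fun _ => hy.1⟩
        · refine ⟨S, fun _ => ⟨?_, ?_⟩⟩
          · split_ifs <;> omega
          · intro y hy
            exact ⟨(hS2 y hy).1, (hS2 y hy).2, fun h => absurd h h5⟩
    choose S hS using key
    let f : (Σ _ : (Σ y : V, (shiq L).Walk x y), V) → (Σ y : V, (shiq L).Walk x y) :=
      fun r => if h : (shiq L).Adj r.1.1 r.2 then ⟨r.2, r.1.2.concat h⟩ else r.1
    have hf : Set.InjOn f (E.sigma S : Finset (Σ _ : (Σ y : V, (shiq L).Walk x y), V)) := by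
      rintro ⟨⟨y1, q1⟩, z1⟩ hr1 ⟨⟨y2, q2⟩, z2⟩ hr2 he
      rw [Finset.mem_coe, Finset.mem_sigma] at hr1 hr2
      have ha1 := ((hS _ hr1.1).2 _ hr1.2).1
      have ha2 := ((hS _ hr2.1).2 _ hr2.2).1
      simp only [f] at he
      dsimp only at ha1 ha2
      rw [dif_pos ha1, dif_pos ha2] at he
      obtain ⟨hz, hc⟩ := Sigma.mk.inj_iff.mp he
      subst hz
      have hc' := eq_of_heq hc
      obtain ⟨hv, hc2⟩ := SimpleGraph.Walk.concat_inj hc'
      subst hv
      simp at hc2
      subst hc2
      rfl
    refine ⟨(E.sigma S).image f, ?_, ?_⟩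
    · rw [Finset.card_image_of_injOn hf, Finset.card_sigma]
      have h1 : E.card * (if i < J then 3 else 4) ≤ ∑ q ∈ E, (S q).card := by
        rw [← smul_eq_mul, ← Finset.sum_const]
        exact Finset.sum_le_sum fun q hq => (hS q hq).1
      refine le_trans ?_ h1
      refine le_trans ?_ (Nat.mul_le_mul_right _ hE)
      split_ifs with h2
      · have e1 : min (i + 1) J = min i J + 1 := by omega
        have e2 : i + 1 - J = i - J := by omega
        rw [e1, e2, pow_succ]
        apply le_of_eq; ring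
      · have e1 : min (i + 1) J = min i J := by omega
        have e2 : i + 1 - J = i - J + 1 := by omega
        rw [e1, e2, pow_succ]
        apply le_of_eq; ring
    · intro q' hq'
      rw [Finset.mem_image] at hq'
      obtain ⟨⟨⟨y, q⟩, z⟩, hr, rfl⟩ := hq'
      rw [Finset.mem_sigma] at hr
      dsimp only at hr
      obtain ⟨ha, hlz, hne⟩ := (hS _ hr.1).2 _ hr.2
      dsimp only at ha hlz hne
      obtain ⟨h1, h2, h3, h4⟩ := hE2 _ hr.1
      dsimp only at h1 h2 h3 h4
      simp only [f]
      rw [dif_pos ha]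
      dsimp only
      have hnew := low_new π hlen q h1 h2 h3 ha hlz hne
      refine ⟨?_, ?_, ?_, ?_⟩
      · rw [SimpleGraph.Walk.length_concat, h1]
      · rw [hlz, h2]; push_cast; ring
      · intro w hw
        rw [SimpleGraph.Walk.support_concat, List.mem_append, List.mem_singleton] at hw
        rcases hw with hw | hw
        · have := h3 w hw
          omega
        · rw [hw]
      · rw [SimpleGraph.Walk.append_concat]
        exact h4.concat hnew ha

/-- for a vertex at distance at most `m` -/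
theorem low_vert (hOut : StmtOut) {L : V → ℤ} (hL : Good L) {m n : ℕ} (hm : 1 ≤ m)
    (hmn : 2 * m ≤ n) {x : V} (hr : (shiq L).Reachable [] x) (hd : (shiq L).dist [] x ≤ m) :
    ∃ E : Finset (Σ y : V, (shiq L).Walk [] y), 3 ^ m * 4 ^ (n - 2 * m) ≤ E.card ∧
      ∀ w ∈ E, w ∈ saws (shiq L) [] n ∧ w.2.getVert ((shiq L).dist [] x) = x := by
  classical
  obtain ⟨π, hπ, hlen⟩ := hr.exists_path_of_dist
  obtain ⟨E, hE, hE2⟩ := low_ext hOut hL π hπ hlen (J := max π.length 1) (by omega) (by omega)
    (n - π.length)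
  let f : (Σ y : V, (shiq L).Walk x y) → (Σ y : V, (shiq L).Walk [] y) :=
    fun q => ⟨q.1, π.append q.2⟩
  have hf : Function.Injective f := by
    rintro ⟨y1, q1⟩ ⟨y2, q2⟩ he
    obtain ⟨hy, hc⟩ := Sigma.mk.inj_iff.mp he
    dsimp only at hy
    subst hy
    rw [low_append_inj π q1 q2 (eq_of_heq hc)]
  refine ⟨E.image f, ?_, ?_⟩
  · rw [Finset.card_image_of_injective _ hf]
    refine le_trans ?_ hE
    set j := π.length with hj
    set J := max j 1 with hJ
    have h1 : min (n - j) J = J := by omega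
    rw [h1]
    obtain ⟨a, ha⟩ : ∃ a, m = J + a := ⟨m - J, by omega⟩
    have h2 : n - j - J = (n - 2 * m) + (m - j) + a := by omega
    rw [h2, ha, pow_add, pow_add, pow_add, ← ha]
    have h3 : 3 ^ a ≤ 4 ^ a := Nat.pow_le_pow_left (by norm_num) a
    have h4 : 1 ≤ 4 ^ (m - j) := Nat.one_le_pow _ _ (by norm_num)
    calc 3 ^ J * 3 ^ a * 4 ^ (n - 2 * m) = 3 ^ J * (4 ^ (n - 2 * m) * 1 * 3 ^ a) := by ring
      _ ≤ 3 ^ J * (4 ^ (n - 2 * m) * 4 ^ (m - j) * 4 ^ a) := by gcongr
  · intro w hw
    rw [Finset.mem_image] at hw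
    obtain ⟨⟨y, q⟩, hq, rfl⟩ := hw
    obtain ⟨h1, h2, h3, h4⟩ := hE2 _ hq
    dsimp only at h1 h2 h3 h4
    refine ⟨⟨h4, ?_⟩, ?_⟩
    · simp only [f]
      rw [SimpleGraph.Walk.length_append, h1]
      omega
    · simp only [f]
      rw [← hlen, SimpleGraph.Walk.getVert_append]
      simp

theorem stmtLow_of (hOut : StmtOut) (hFin : StmtFin) : StmtLow := by
  classical
  intro L hL m n hm hmn X hX
  have hfin := hFin L hL [] n
  have key : ∀ x : V, ∃ E : Finset (Σ y : V, (shiq L).Walk [] y), x ∈ X →
      3 ^ m * 4 ^ (n - 2 * m) ≤ E.card ∧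
      ∀ w ∈ E, w ∈ saws (shiq L) [] n ∧ w.2.getVert ((shiq L).dist [] x) = x := by
    intro x
    by_cases hx : x ∈ X
    · obtain ⟨E, hE⟩ := low_vert hOut hL hm hmn (hX x hx).1 (hX x hx).2
      exact ⟨E, fun _ => hE⟩
    · exact ⟨∅, fun h => absurd h hx⟩
  choose E hE using key
  have h1 : X.card * (3 ^ m * 4 ^ (n - 2 * m)) ≤ (X.sigma E).card := by
    rw [Finset.card_sigma, ← smul_eq_mul, ← Finset.sum_const]
    exact Finset.sum_le_sum fun x hx => (hE x hx).1
  refine le_trans h1 ?_
  have h2 : (X.sigma E).card ≤ (Finset.range (m + 1) ×ˢ hfin.toFinset).card := by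
    refine Finset.card_le_card_of_injOn (fun r => ((shiq L).dist [] r.1, r.2)) ?_ ?_
    · rintro ⟨x, w⟩ hr
      rw [Finset.mem_coe, Finset.mem_sigma] at hr
      rw [Finset.mem_coe, Finset.mem_product, Finset.mem_range, Set.Finite.mem_toFinset]
      have := (hX _ hr.1).2
      exact ⟨by dsimp only at this ⊢; omega, ((hE _ hr.1).2 _ hr.2).1⟩
    · rintro ⟨x1, w1⟩ hr1 ⟨x2, w2⟩ hr2 he
      rw [Finset.mem_coe, Finset.mem_sigma] at hr1 hr2
      simp only [Prod.mk.injEq] at he
      obtain ⟨he1, he2⟩ := he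
      have e1 := ((hE _ hr1.1).2 _ hr1.2).2
      have e2 := ((hE _ hr2.1).2 _ hr2.2).2
      dsimp only at e1 e2
      subst he2
      rw [he1, e2] at e1
      subst e1
      rfl
  rw [Finset.card_product, Finset.card_range, ← Set.ncard_eq_toFinset_card _ hfin] at h2
  exact h2

end Pool.SHQ
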